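import Mathlib

/-!
# Generic matrices and a counting lemma
-/

set_option autoImplicit false

open Finset

namespace Pool.Agent.H522R3.TW

/-- every square submatrix of `G` is nonsingular -/
def Superregular {K : Type*} [Field K] {m : ℕ} (G : Fin m → Fin m → K) : Prop :=
  ∀ (Ks Js : Finset (Fin m)), Ks.card ≤ Js.card → ∀ x : Fin m → K, (∀ k ∉ Ks, x k = 0) →
    (∀ j ∈ Js, ∑ k, x k * G k j = 0) → ∀ k, x k = 0

/-- Over some extension field there is a superregular matrix. -/
theorem exists_superregular (F : Type*) [Field F] (m : ℕ) :
    ∃ G : Fin m → Fin m → FractionRing (MvPolynomial (Fin m × Fin m) F), Superregular G := by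
  classical
  refine ⟨fun k j => algebraMap (MvPolynomial (Fin m × Fin m) F) _ (MvPolynomial.X (k, j)), ?_⟩
  intro Ks Js hc x hx h0
  obtain ⟨Js', hJ', hJc⟩ := exists_subset_card_eq hc
  let σ : Ks ≃ Js' := Finset.equivOfCardEq hJc.symm
  let f : Ks × Ks → Fin m × Fin m := fun p => (p.1.1, (σ p.2).1)
  have hf : Function.Injective f := by
    rintro ⟨a, b⟩ ⟨c, d⟩ h
    simp only [f, Prod.mk.injEq] at h
    have h1 : a = c := Subtype.ext h.1
    have h2 : σ b = σ d := Subtype.ext h.2
    rw [h1, σ.injective h2]
  let M : Matrix Ks Ks (FractionRing (MvPolynomial (Fin m × Fin m) F)) := fun k k' =>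
    algebraMap (MvPolynomial (Fin m × Fin m) F) _ (MvPolynomial.X (k.1, (σ k').1))
  have hdet : M.det ≠ 0 := by
    have e1 : M = ((Matrix.mvPolynomialX Ks Ks F).map (MvPolynomial.rename f)).map
        (algebraMap (MvPolynomial (Fin m × Fin m) F) _) := by
      ext k k'
      simp [M, f, Matrix.mvPolynomialX]
    rw [e1]
    have e2 : (((Matrix.mvPolynomialX Ks Ks F).map (MvPolynomial.rename f)).map
        (algebraMap (MvPolynomial (Fin m × Fin m) F)
          (FractionRing (MvPolynomial (Fin m × Fin m) F)))).det =
        algebraMap (MvPolynomial (Fin m × Fin m) F) _ (MvPolynomial.rename f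
          (Matrix.mvPolynomialX Ks Ks F).det) := by
      have h1 := RingHom.map_det (algebraMap (MvPolynomial (Fin m × Fin m) F)
        (FractionRing (MvPolynomial (Fin m × Fin m) F)))
        ((Matrix.mvPolynomialX Ks Ks F).map (MvPolynomial.rename f))
      have h2 := AlgHom.map_det (MvPolynomial.rename f (R := F)) (Matrix.mvPolynomialX Ks Ks F)
      rw [RingHom.mapMatrix_apply] at h1
      rw [AlgHom.mapMatrix_apply] at h2
      rw [← h1, ← h2]
    rw [e2]
    intro h3
    have h4 : MvPolynomial.rename f (Matrix.mvPolynomialX Ks Ks F).det = 0 := by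
      apply IsFractionRing.injective (MvPolynomial (Fin m × Fin m) F)
        (FractionRing (MvPolynomial (Fin m × Fin m) F))
      rw [h3, map_zero]
    have h5 : (Matrix.mvPolynomialX Ks Ks F).det = 0 := by
      apply MvPolynomial.rename_injective f hf
      rw [h4, map_zero]
    exact Matrix.det_mvPolynomialX_ne_zero Ks F h5
  have hv : (fun k : Ks => x k.1) = 0 := by
    apply Matrix.eq_zero_of_vecMul_eq_zero hdet
    funext k'
    have h1 := h0 (σ k').1 (hJ' (σ k').2)
    have h2 : ∑ k, x k * algebraMap (MvPolynomial (Fin m × Fin m) F)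
        (FractionRing (MvPolynomial (Fin m × Fin m) F)) (MvPolynomial.X (k, (σ k').1)) =
        ∑ k ∈ Ks, x k * algebraMap (MvPolynomial (Fin m × Fin m) F)
        (FractionRing (MvPolynomial (Fin m × Fin m) F)) (MvPolynomial.X (k, (σ k').1)) := by
      symm
      apply Finset.sum_subset (subset_univ _)
      intro k _ hk
      rw [hx k hk, zero_mul]
    rw [h2, ← Finset.sum_coe_sort Ks] at h1
    simpa [Matrix.vecMul, dotProduct, M] using h1
  intro k
  by_cases hk : k ∈ Ks
  · exact congrFun hv ⟨k, hk⟩
  · exact hx k hk

/-- The counting lemma. -/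
theorem half {K : Type*} [Field K] {m : ℕ} (G : Fin m → Fin m → K) (hG : Superregular G)
    (R O : Finset (Fin m × Fin m)) {ι : Type*} (D : Finset ι)
    (l : ι → ((Fin m × Fin m → K) →ₗ[K] K))
    (hO : ∀ p ∈ O, 2 * (R.filter fun r => r.1 = p.1).card ≤ m)
    (h : ∀ y : Fin m × Fin m → K, (∀ r ∈ R, y r = 0) → (∀ d ∈ D, l d y = 0) →
      ∀ p ∈ O, ∑ k, y (p.1, k) * G k p.2 = 0) : O.card ≤ 2 * D.card := by
  classical
  let J : Fin m → Finset (Fin m) := fun i => univ.filter fun j => (i, j) ∈ O
  let Kf : Fin m → Finset (Fin m) := fun i => univ.filter fun k => (i, k) ∉ R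
  have hex : ∀ i, ∃ Z : Finset (Fin m), Z ⊆ Kf i ∧ Z.card = min (J i).card (Kf i).card := by
    intro i
    exact exists_subset_card_eq (min_le_right _ _)
  choose Z hZ hZc using hex
  let U : Finset (Fin m × Fin m) := univ.filter fun p => p.2 ∈ Z p.1
  have hUc : U.card = ∑ i, (Z i).card := by
    rw [Finset.card_filter, ← Finset.univ_product_univ, Finset.sum_product]
    apply Finset.sum_congr rfl
    intro i _
    rw [← Finset.card_filter]
    congr 1
    ext k
    simp
  have hOc : O.card = ∑ i, (J i).card := by
    rw [show O = univ.filter fun p : Fin m × Fin m => p ∈ O by ext; simp, Finset.card_filter,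
      ← Finset.univ_product_univ, Finset.sum_product]
    apply Finset.sum_congr rfl
    intro i _
    rw [← Finset.card_filter]
  have hJZ : ∀ i, (J i).card ≤ 2 * (Z i).card := by
    intro i
    rw [hZc]
    rcases Finset.eq_empty_or_nonempty (J i) with he | ⟨j, hj⟩
    · rw [he]
      simp
    · have h1 := hO (i, j) (by simpa [J] using hj)
      have h2 : (R.filter fun r => r.1 = i).card + (Kf i).card = m := by
        have e1 : (R.filter fun r => r.1 = i).card =
            (univ.filter fun k => (i, k) ∈ R).card := by
          rw [← Finset.card_image_of_injective (univ.filter fun k => (i, k) ∈ R)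
            (f := fun k : Fin m => ((i, k) : Fin m × Fin m)) (by
              intro a b hab
              exact (Prod.mk.inj hab).2)]
          congr 1
          ext ⟨a, b⟩
          simp only [mem_filter, mem_image, mem_univ, true_and, Prod.mk.injEq]
          constructor
          · rintro ⟨h3, h4⟩
            subst h4
            exact ⟨b, h3, rfl, rfl⟩
          · rintro ⟨k, h3, h4, h5⟩
            subst h4
            subst h5
            exact ⟨h3, rfl⟩
        rw [e1]
        have := Finset.card_filter_add_card_filter_not (s := (univ : Finset (Fin m)))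
          (fun k => (i, k) ∈ R)
        rw [Finset.card_univ, Fintype.card_fin] at this
        exact this
      have h3 : (J i).card ≤ m := by
        have := card_le_univ (J i)
        rwa [Fintype.card_fin] at this
      simp only at h1
      rcases min_cases (J i).card (Kf i).card with ⟨h4, _⟩ | ⟨h4, _⟩ <;> omega
  have hOU : O.card ≤ 2 * U.card := by
    rw [hOc, hUc, Finset.mul_sum]
    exact Finset.sum_le_sum fun i _ => hJZ i
  have hUD : U.card ≤ D.card := by
    by_contra hcon
    push Not at hcon
    let ext0 : (U → K) →ₗ[K] (Fin m × Fin m → K) :=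
      { toFun := fun y p => if hp : p ∈ U then y ⟨p, hp⟩ else 0
        map_add' := by
          intro y y'
          funext p
          by_cases hp : p ∈ U <;> simp [hp]
        map_smul' := by
          intro c y
          funext p
          by_cases hp : p ∈ U <;> simp [hp] }
    let f : (U → K) →ₗ[K] (D → K) := LinearMap.pi fun d => (l d.1).comp ext0
    have hker : LinearMap.ker f ≠ ⊥ := by
      apply LinearMap.ker_ne_bot_of_finrank_lt
      rw [Module.finrank_fintype_fun_eq_card, Module.finrank_fintype_fun_eq_card,
        Fintype.card_coe, Fintype.card_coe]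
      exact hcon
    rw [Submodule.ne_bot_iff] at hker
    obtain ⟨y, hy, hy0⟩ := hker
    rw [LinearMap.mem_ker] at hy
    apply hy0
    have hx := h (ext0 y) (by
      intro r hr
      have hrU : r ∉ U := by
        intro hrU
        simp only [U, mem_filter, mem_univ, true_and] at hrU
        have := hZ _ hrU
        simp only [Kf, mem_filter, mem_univ, true_and] at this
        exact this hr
      simp only [ext0, LinearMap.coe_mk, AddHom.coe_mk]
      rw [dif_neg hrU]) (by
      intro d hd
      exact congrFun hy ⟨d, hd⟩)
    funext p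
    obtain ⟨⟨i, k⟩, hp⟩ := p
    have h5 := hG (Z i) (J i) (by rw [hZc]; exact min_le_left _ _)
      (fun k => ext0 y (i, k)) (by
        intro k hk
        have : (i, k) ∉ U := by
          intro hkU
          simp only [U, mem_filter, mem_univ, true_and] at hkU
          exact hk hkU
        simp only [ext0, LinearMap.coe_mk, AddHom.coe_mk]
        rw [dif_neg this]) (by
        intro j hj
        exact hx (i, j) (by simpa [J] using hj)) k
    simp only [ext0, LinearMap.coe_mk, AddHom.coe_mk] at h5
    rw [dif_pos hp] at h5
    exact h5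
  omega

end Pool.Agent.H522R3.TW
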