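import Mathlib
import Pool.Agent.H522R2.Circuit
import Pool.Agent.H522R3.TW.Regular

/-!
# A set of gates reading few inputs and few other gates computes few entries of the product
-/

set_option autoImplicit false

open Finset

namespace Pool.Agent.H522R3.TW

open Pool.Agent.H522R2 Pool.Agent.H522R2.Circuit

section Defs

variable {F V : Type*}

/-- The node `k` is a gate (an addition or a multiplication) and not an input. -/
def IsGate (C : Circuit F V) (k : Fin C.nodes) : Prop :=
  ∃ i j, C.gate k = Gate.add i j ∨ C.gate k = Gate.mul i j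

/-- The node `h` is one of the two inputs of the gate `k`. -/
def Feeds (C : Circuit F V) (h k : Fin C.nodes) : Prop :=
  ∃ i j, (C.gate k = Gate.add i j ∨ C.gate k = Gate.mul i j) ∧ (C.up k i = h ∨ C.up k j = h)

/-- The gate `k` reads the variable `x`: one of its inputs is labelled by `x`. -/
def Reads (C : Circuit F V) (k : Fin C.nodes) (x : V) : Prop :=
  ∃ h, Feeds C h k ∧ C.gate h = Gate.var x

/-- The number of pairs consisting of a gate and of a variable that it reads. -/
noncomputable def readCount (C : Circuit F V) : ℕ :=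
  Nat.card {p : Fin C.nodes × V // Reads C p.1 p.2}

open Classical in
/-- the variables read by a gate -/
noncomputable def readSet [Fintype V] (C : Circuit F V) (k : Fin C.nodes) : Finset V :=
  univ.filter fun x => Reads C k x

theorem mem_readSet [Fintype V] {C : Circuit F V} {k : Fin C.nodes} {x : V} :
    x ∈ readSet C k ↔ Reads C k x := by
  classical
  simp [readSet]

theorem readCount_eq [Fintype V] (C : Circuit F V) :
    readCount C = ∑ k, (readSet C k).card := by
  classical
  rw [readCount, Nat.card_eq_fintype_card, Fintype.card_subtype, Finset.card_filter,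
    ← Finset.univ_product_univ, Finset.sum_product]
  apply Finset.sum_congr rfl
  intro k _
  rw [← Finset.card_filter]
  rfl

theorem feeds_add {C : Circuit F V} {h k : Fin C.nodes} {i j : Fin (k : ℕ)}
    (hg : C.gate k = Gate.add i j) : Feeds C h k ↔ C.up k i = h ∨ C.up k j = h := by
  constructor
  · rintro ⟨i', j', h1, h2⟩
    rcases h1 with h1 | h1
    · rw [hg] at h1
      injection h1 with e1 e2
      rw [e1, e2]
      exact h2
    · rw [hg] at h1
      exact absurd h1 (by simp)
  · intro h2
    exact ⟨i, j, Or.inl hg, h2⟩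

theorem feeds_mul {C : Circuit F V} {h k : Fin C.nodes} {i j : Fin (k : ℕ)}
    (hg : C.gate k = Gate.mul i j) : Feeds C h k ↔ C.up k i = h ∨ C.up k j = h := by
  constructor
  · rintro ⟨i', j', h1, h2⟩
    rcases h1 with h1 | h1
    · rw [hg] at h1
      exact absurd h1 (by simp)
    · rw [hg] at h1
      injection h1 with e1 e2
      rw [e1, e2]
      exact h2
  · intro h2
    exact ⟨i, j, Or.inr hg, h2⟩

theorem card_readSet_le [Fintype V] (C : Circuit F V) (k : Fin C.nodes) :
    (readSet C k).card ≤ 2 := by
  classical
  let lab : Fin C.nodes → Finset V := fun h => univ.filter fun x => C.gate h = Gate.var x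
  have hlab : ∀ h, (lab h).card ≤ 1 := by
    intro h
    rw [card_le_one]
    intro x hx y hy
    simp only [lab, mem_filter, mem_univ, true_and] at hx hy
    rw [hx] at hy
    injection hy
  by_cases hk : IsGate C k
  · obtain ⟨i, j, hij⟩ := hk
    have hf : ∀ h, Feeds C h k ↔ C.up k i = h ∨ C.up k j = h := by
      intro h
      rcases hij with hij | hij
      · exact feeds_add hij
      · exact feeds_mul hij
    have hsub : readSet C k ⊆ lab (C.up k i) ∪ lab (C.up k j) := by
      intro x hx
      rw [mem_readSet] at hx
      obtain ⟨h, h1, h2⟩ := hx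
      rw [hf] at h1
      rw [mem_union]
      rcases h1 with h1 | h1
      · left
        simp only [lab, mem_filter, mem_univ, true_and]
        rw [h1]
        exact h2
      · right
        simp only [lab, mem_filter, mem_univ, true_and]
        rw [h1]
        exact h2
    have h1 := card_le_card hsub
    have h2 := card_union_le (lab (C.up k i)) (lab (C.up k j))
    have h3 := hlab (C.up k i)
    have h4 := hlab (C.up k j)
    omega
  · have : readSet C k = ∅ := by
      apply Finset.eq_empty_of_forall_notMem
      intro x hx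
      rw [mem_readSet] at hx
      obtain ⟨h, ⟨i, j, h1, _⟩, _⟩ := hx
      exact hk ⟨i, j, h1⟩
    rw [this]
    simp

end Defs

section Derivative

variable {F V K : Type*} [Field F] [Fintype V] [Field K] [Algebra F K]

/-- directional derivative at the point `pt` -/
noncomputable def dl (pt : V → K) (p : MvPolynomial V F) : (V → K) →ₗ[K] K :=
  ∑ v, (MvPolynomial.aeval pt (MvPolynomial.pderiv v p)) • LinearMap.proj v

theorem dl_apply (pt : V → K) (p : MvPolynomial V F) (x : V → K) :
    dl pt p x = ∑ v, MvPolynomial.aeval pt (MvPolynomial.pderiv v p) * x v := by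
  simp [dl]

theorem dl_X (pt : V → K) (w : V) (x : V → K) :
    dl pt (MvPolynomial.X w : MvPolynomial V F) x = x w := by
  classical
  rw [dl_apply, Finset.sum_eq_single w]
  · simp
  · intro v _ hv
    rw [MvPolynomial.pderiv_X_of_ne hv.symm, map_zero, zero_mul]
  · intro h
    exact absurd (mem_univ w) h

theorem dl_C (pt : V → K) (c : F) (x : V → K) :
    dl pt (MvPolynomial.C c : MvPolynomial V F) x = 0 := by
  rw [dl_apply]
  apply Finset.sum_eq_zero
  intro v _
  rw [MvPolynomial.pderiv_C, map_zero, zero_mul]

theorem dl_add (pt : V → K) (p q : MvPolynomial V F) (x : V → K) :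
    dl pt (p + q) x = dl pt p x + dl pt q x := by
  rw [dl_apply, dl_apply, dl_apply, ← Finset.sum_add_distrib]
  apply Finset.sum_congr rfl
  intro v _
  rw [map_add, map_add, add_mul]

theorem dl_mul (pt : V → K) (p q : MvPolynomial V F) (x : V → K) :
    dl pt (p * q) x = MvPolynomial.aeval pt q * dl pt p x + MvPolynomial.aeval pt p * dl pt q x := by
  rw [dl_apply, dl_apply, dl_apply, Finset.mul_sum, Finset.mul_sum, ← Finset.sum_add_distrib]
  apply Finset.sum_congr rfl
  intro v _
  rw [MvPolynomial.pderiv_mul, map_add, map_mul, map_mul]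
  ring

theorem dl_sum (pt : V → K) {ι : Type*} (s : Finset ι) (p : ι → MvPolynomial V F) (x : V → K) :
    dl pt (∑ i ∈ s, p i) x = ∑ i ∈ s, dl pt (p i) x := by
  classical
  induction s using Finset.induction_on with
  | empty =>
    rw [Finset.sum_empty, Finset.sum_empty, ← MvPolynomial.C_0]
    exact dl_C pt 0 x
  | insert a s ha ih =>
    rw [Finset.sum_insert ha, Finset.sum_insert ha, dl_add, ih]

/-- The values at `X` depend only on the variables read in `X` and on the values at `D`. -/
theorem dl_closed (C : Circuit F V) (pt x : V → K) (X D : Finset (Fin C.nodes))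
    (hX : ∀ g ∈ X, IsGate C g)
    (hcl : ∀ g ∈ X, g ∉ D → ∀ h, Feeds C h g → IsGate C h → h ∈ X ∨ h ∈ D)
    (hx : ∀ g ∈ X, ∀ v, Reads C g v → x v = 0)
    (hD : ∀ h ∈ D, dl pt (C.poly h) x = 0) : ∀ g ∈ X, dl pt (C.poly g) x = 0 := by
  intro g
  induction g using WellFoundedLT.induction with
  | _ g ih =>
    intro hg
    by_cases hgD : g ∈ D
    · exact hD g hgD
    have hfeed : ∀ h : Fin C.nodes, h < g → Feeds C h g → dl pt (C.poly h) x = 0 := by
      intro h hlt hf
      by_cases hh : IsGate C h
      · rcases hcl g hg hgD h hf hh with h1 | h1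
        · exact ih h hlt h1
        · exact hD h h1
      · rw [poly]
        cases hc : C.gate h with
        | var w =>
          simp only
          rw [dl_X]
          exact hx g hg w ⟨h, hf, hc⟩
        | const c =>
          simp only
          rw [dl_C]
        | add i j => exact absurd ⟨i, j, Or.inl hc⟩ hh
        | mul i j => exact absurd ⟨i, j, Or.inr hc⟩ hh
    rw [poly]
    cases hc : C.gate g with
    | var w =>
      obtain ⟨i, j, h⟩ := hX g hg
      rw [hc] at h
      simp at h
    | const c =>
      obtain ⟨i, j, h⟩ := hX g hg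
      rw [hc] at h
      simp at h
    | add i j =>
      simp only
      have h1 := hfeed (C.up g i) (by rw [Fin.lt_def]; exact i.2) ((feeds_add hc).2 (Or.inl rfl))
      have h2 := hfeed (C.up g j) (by rw [Fin.lt_def]; exact j.2) ((feeds_add hc).2 (Or.inr rfl))
      rw [dl_add, h1, h2, add_zero]
    | mul i j =>
      simp only
      have h1 := hfeed (C.up g i) (by rw [Fin.lt_def]; exact i.2) ((feeds_mul hc).2 (Or.inl rfl))
      have h2 := hfeed (C.up g j) (by rw [Fin.lt_def]; exact j.2) ((feeds_mul hc).2 (Or.inr rfl))
      rw [dl_mul, h1, h2, mul_zero, mul_zero, add_zero]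

end Derivative

section Matrices

/-- The variables: the entries `a_{ik}` (left summand) and `b_{kj}` (right summand). -/
abbrev Vars (m : ℕ) : Type := (Fin m × Fin m) ⊕ (Fin m × Fin m)

/-- The entry `c_{ij} = ∑ k, a_{ik} b_{kj}` of the product of two generic `m × m` matrices. -/
noncomputable def entry (F : Type*) [Field F] (m : ℕ) (i j : Fin m) : MvPolynomial (Vars m) F :=
  ∑ k : Fin m, MvPolynomial.X (Sum.inl (i, k)) * MvPolynomial.X (Sum.inr (k, j))

variable {F : Type*} [Field F] {m : ℕ}

theorem entry_homog (i j : Fin m) : (entry F m i j).IsHomogeneous 2 := by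
  apply MvPolynomial.IsHomogeneous.sum
  intro k _
  exact (MvPolynomial.isHomogeneous_X F _).mul (MvPolynomial.isHomogeneous_X F _)

theorem entry_ne_zero (i j : Fin m) : entry F m i j ≠ 0 := by
  classical
  intro h
  have h1 := congrArg (MvPolynomial.aeval (R := F) (fun v : Vars m =>
    match v with
    | .inl p => if p = (i, i) then (1 : F) else 0
    | .inr p => if p = (i, j) then (1 : F) else 0)) h
  rw [entry, map_sum, Finset.sum_eq_single i, map_zero] at h1
  · simp at h1
  · intro k _ hk
    simp [hk]
  · intro hi
    exact absurd (mem_univ i) hi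

theorem isGate_of_entry (C : Circuit F (Vars m)) (k : Fin C.nodes) (i j : Fin m)
    (h : C.poly k = entry F m i j) : IsGate C k := by
  rw [poly] at h
  cases hc : C.gate k with
  | var w =>
    rw [hc] at h
    simp only at h
    exfalso
    have h1 := MvPolynomial.isHomogeneous_X F w
    rw [h] at h1
    have := h1.inj_right (entry_homog i j) (entry_ne_zero i j)
    omega
  | const c =>
    rw [hc] at h
    simp only at h
    exfalso
    have h1 := MvPolynomial.isHomogeneous_C (Vars m) c
    rw [h] at h1
    have := h1.inj_right (entry_homog i j) (entry_ne_zero i j)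
    omega
  | add a b => exact ⟨a, b, Or.inl hc⟩
  | mul a b => exact ⟨a, b, Or.inr hc⟩

theorem dl_entry {K : Type*} [Field K] [Algebra F K] (pt x : Vars m → K) (i j : Fin m) :
    dl pt (entry F m i j) x = ∑ k, (pt (.inr (k, j)) * x (.inl (i, k)) +
      pt (.inl (i, k)) * x (.inr (k, j))) := by
  rw [entry, dl_sum]
  apply Finset.sum_congr rfl
  intro k _
  rw [dl_mul, dl_X, dl_X, MvPolynomial.aeval_X, MvPolynomial.aeval_X]

/-- big rows are few -/
theorem card_big (R : Finset (Fin m × Fin m)) (f : Fin m × Fin m → Fin m) :
    m * (univ.filter fun i : Fin m => m < 2 * (R.filter fun r => f r = i).card).card ≤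
      2 * R.card := by
  classical
  have h1 : R.card = ∑ i, (R.filter fun r => f r = i).card :=
    Finset.card_eq_sum_card_fiberwise (fun _ _ => mem_univ _)
  rw [h1, Finset.mul_sum]
  calc m * (univ.filter fun i : Fin m => m < 2 * (R.filter fun r => f r = i).card).card
      = ∑ i ∈ univ.filter fun i : Fin m => m < 2 * (R.filter fun r => f r = i).card, m := by
        rw [Finset.sum_const, smul_eq_mul, mul_comm]
    _ ≤ ∑ i ∈ univ.filter fun i : Fin m => m < 2 * (R.filter fun r => f r = i).card,
          2 * (R.filter fun r => f r = i).card := by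
        apply Finset.sum_le_sum
        intro i hi
        exact (mem_filter.1 hi).2.le
    _ ≤ ∑ i, 2 * (R.filter fun r => f r = i).card :=
        Finset.sum_le_sum_of_subset (filter_subset _ _)

/-- extension by zero, first matrix -/
def emA (K : Type*) [Field K] (m : ℕ) : (Fin m × Fin m → K) →ₗ[K] (Vars m → K) where
  toFun := fun y => Sum.elim y 0
  map_add' := by
    intro y y'
    funext v
    cases v <;> simp
  map_smul' := by
    intro c y
    funext v
    cases v <;> simp

/-- extension by zero, second matrix (transposed) -/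
def emB (K : Type*) [Field K] (m : ℕ) : (Fin m × Fin m → K) →ₗ[K] (Vars m → K) where
  toFun := fun y => Sum.elim 0 (fun p : Fin m × Fin m => y (p.2, p.1))
  map_add' := by
    intro y y'
    funext v
    cases v <;> simp
  map_smul' := by
    intro c y
    funext v
    cases v <;> simp

/-- The inequality for one block of gates, given a superregular matrix. -/
theorem piece_aux {K : Type*} [Field K] [Algebra F K] (G : Fin m → Fin m → K)
    (hG : Superregular G) (C : Circuit F (Vars m)) (X D : Finset (Fin C.nodes))
    (hX : ∀ g ∈ X, IsGate C g)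
    (hcl : ∀ g ∈ X, g ∉ D → ∀ h, Feeds C h g → IsGate C h → h ∈ X ∨ h ∈ D)
    (RA RB : Finset (Fin m × Fin m)) (hRA : ∀ g ∈ X, ∀ r, Reads C g (.inl r) → r ∈ RA)
    (hRB : ∀ g ∈ X, ∀ r, Reads C g (.inr r) → r ∈ RB)
    (O : Finset (Fin m × Fin m)) (hO : ∀ p ∈ O, ∃ g ∈ X, C.poly g = entry F m p.1 p.2) :
    m ^ 2 * O.card ≤ 4 * (RA.card * RB.card) + 4 * m ^ 2 * D.card := by
  classical
  let pt : Vars m → K := Sum.elim (fun p => G p.2 p.1) (fun p => G p.1 p.2)
  let IA := univ.filter fun i : Fin m => m < 2 * (RA.filter fun r => r.1 = i).card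
  let JB := univ.filter fun j : Fin m => m < 2 * (RB.filter fun r => r.2 = j).card
  let O1 := O.filter fun p => p.1 ∉ IA
  let O2 := O.filter fun p => p.2 ∉ JB
  have h1 : O1.card ≤ 2 * D.card := by
    apply half G hG RA O1 D (fun d => (dl pt (C.poly d)).comp (emA K m))
    · intro p hp
      have h2 := (mem_filter.1 hp).2
      simp only [IA, mem_filter, mem_univ, true_and, not_lt] at h2
      exact h2
    · intro y hy hd p hp
      obtain ⟨g, hg, hgp⟩ := hO p (mem_filter.1 hp).1
      have h2 := dl_closed C pt (Sum.elim y 0) X D hX hcl (by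
        intro g hg v hv
        cases v with
        | inl r => exact hy r (hRA g hg r hv)
        | inr r => rfl) (by
        intro h hh
        exact hd h hh) g hg
      rw [hgp, dl_entry] at h2
      rw [← h2]
      apply Finset.sum_congr rfl
      intro k _
      simp only [pt, Sum.elim_inl, Sum.elim_inr, Pi.zero_apply, mul_zero, add_zero]
      ring
  have h2 : O2.card ≤ 2 * D.card := by
    have e1 : O2.card = (O2.map (Equiv.prodComm (Fin m) (Fin m)).toEmbedding).card :=
      (Finset.card_map _).symm
    rw [e1]
    apply half G hG (RB.map (Equiv.prodComm (Fin m) (Fin m)).toEmbedding) _ D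
      (fun d => (dl pt (C.poly d)).comp (emB K m))
    · intro p hp
      rw [Finset.mem_map_equiv] at hp
      have h3 := (mem_filter.1 hp).2
      simp only [JB, mem_filter, mem_univ, true_and, not_lt, Equiv.prodComm_symm,
        Equiv.prodComm_apply, Prod.snd_swap] at h3
      refine le_trans (le_of_eq ?_) h3
      congr 1
      rw [← Finset.card_map (Equiv.prodComm (Fin m) (Fin m)).toEmbedding
        (s := RB.filter fun r => r.2 = p.1)]
      congr 1
      ext ⟨a, b⟩
      simp [Finset.mem_map_equiv]
    · intro y hy hd p hp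
      rw [Finset.mem_map_equiv] at hp
      obtain ⟨g, hg, hgp⟩ := hO _ (mem_filter.1 hp).1
      have h3 := dl_closed C pt (Sum.elim 0 (fun p : Fin m × Fin m => y (p.2, p.1))) X D hX hcl (by
        intro g hg v hv
        cases v with
        | inl r => rfl
        | inr r =>
          apply hy
          rw [Finset.mem_map_equiv]
          exact hRB g hg r hv) (by
        intro h hh
        exact hd h hh) g hg
      rw [hgp, dl_entry] at h3
      rw [← h3]
      apply Finset.sum_congr rfl
      intro k _
      simp only [pt, Sum.elim_inl, Sum.elim_inr, Pi.zero_apply, mul_zero, zero_add,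
        Equiv.prodComm_symm, Equiv.prodComm_apply, Prod.fst_swap, Prod.snd_swap]
      ring
  have h3 : O.card ≤ (IA ×ˢ JB).card + O1.card + O2.card := by
    have hsub : O ⊆ ((IA ×ˢ JB) ∪ O1) ∪ O2 := by
      intro p hp
      by_cases hA : p.1 ∈ IA
      · by_cases hB : p.2 ∈ JB
        · exact mem_union_left _ (mem_union_left _ (mem_product.2 ⟨hA, hB⟩))
        · exact mem_union_right _ (mem_filter.2 ⟨hp, hB⟩)
      · exact mem_union_left _ (mem_union_right _ (mem_filter.2 ⟨hp, hA⟩))
    have e1 := card_le_card hsub
    have e2 := card_union_le ((IA ×ˢ JB) ∪ O1) O2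
    have e3 := card_union_le (IA ×ˢ JB) O1
    omega
  have h4 : m * IA.card ≤ 2 * RA.card := card_big RA fun r => r.1
  have h5 : m * JB.card ≤ 2 * RB.card := card_big RB fun r => r.2
  rw [card_product] at h3
  have h6 : m ^ 2 * (IA.card * JB.card) ≤ 4 * (RA.card * RB.card) := by
    calc m ^ 2 * (IA.card * JB.card) = (m * IA.card) * (m * JB.card) := by ring
      _ ≤ (2 * RA.card) * (2 * RB.card) := Nat.mul_le_mul h4 h5
      _ = _ := by ring
  calc m ^ 2 * O.card ≤ m ^ 2 * (IA.card * JB.card + 2 * D.card + 2 * D.card) :=
        Nat.mul_le_mul_left _ (by omega)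
    _ = m ^ 2 * (IA.card * JB.card) + 4 * m ^ 2 * D.card := by ring
    _ ≤ _ := Nat.add_le_add_right h6 _

/-- The inequality for one block of gates. -/
theorem piece (C : Circuit F (Vars m)) (X D : Finset (Fin C.nodes))
    (hX : ∀ g ∈ X, IsGate C g)
    (hcl : ∀ g ∈ X, g ∉ D → ∀ h, Feeds C h g → IsGate C h → h ∈ X ∨ h ∈ D)
    (RA RB : Finset (Fin m × Fin m)) (hRA : ∀ g ∈ X, ∀ r, Reads C g (.inl r) → r ∈ RA)
    (hRB : ∀ g ∈ X, ∀ r, Reads C g (.inr r) → r ∈ RB)
    (O : Finset (Fin m × Fin m)) (hO : ∀ p ∈ O, ∃ g ∈ X, C.poly g = entry F m p.1 p.2) :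
    m ^ 2 * O.card ≤ 4 * (RA.card * RB.card) + 4 * m ^ 2 * D.card := by
  obtain ⟨G, hG⟩ := exists_superregular F m
  exact piece_aux G hG C X D hX hcl RA RB hRA hRB O hO

end Matrices

end Pool.Agent.H522R3.TW
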