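import Mathlib

/-!
# Summation over a tree decomposition

A graph with a tree decomposition of width `t` can be cut into few pieces of bounded weight such that
the sizes of the boundaries of the pieces add up to at most `2 (t + 1)` times the number of pieces.
-/

set_option autoImplicit false

open Finset

namespace Pool.Agent.H522R3.TW

/-- The graph with adjacency relation `adj` has a tree decomposition of width at most `t`. The tree is
rooted at node `0` and given by the parent function `par`, where `par i < i`; the nodes whose bags
contain a given vertex form a nonempty subtree, i.e. exactly one of them is the root or has a parent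
whose bag does not contain the vertex. -/
def HasTreeDec {V : Type*} (adj : V → V → Prop) (t : ℕ) : Prop :=
  ∃ (T : ℕ) (par : Fin (T + 1) → Fin (T + 1)) (bag : Fin (T + 1) → Finset V),
    (∀ i, 0 < i → par i < i) ∧ (∀ i, (bag i).card ≤ t + 1) ∧
    (∀ v, ∃! i, v ∈ bag i ∧ (i = 0 ∨ v ∉ bag (par i))) ∧
    (∀ u v, adj u v → ∃ i, u ∈ bag i ∧ v ∈ bag i)

section Climb

variable {T : ℕ} (par : Fin (T + 1) → Fin (T + 1))

/-- climb from `x` towards the root until the number of the node is at most `J` -/
def cl (J : ℕ) (x : Fin (T + 1)) : Fin (T + 1) :=
  if _h : J < x.val ∧ par x < x then cl J (par x) else x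
termination_by x.val
decreasing_by exact _h.2

theorem cl_of_le {J : ℕ} {x : Fin (T + 1)} (h : x.val ≤ J) : cl par J x = x := by
  rw [cl, dif_neg]
  rintro ⟨h1, -⟩
  omega

variable {par} (hpar : ∀ i, 0 < i → par i < i)
include hpar

theorem cl_of_gt {J : ℕ} {x : Fin (T + 1)} (h : J < x.val) : cl par J x = cl par J (par x) := by
  have h0 : (0 : Fin (T + 1)) < x := by
    rw [Fin.lt_def]
    exact lt_of_le_of_lt (Nat.zero_le _) h
  conv_lhs => rw [cl]
  rw [dif_pos ⟨h, hpar x h0⟩]

theorem cl_val (J : ℕ) (x : Fin (T + 1)) : (cl par J x).val ≤ J := by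
  induction x using WellFoundedLT.induction with
  | _ x ih =>
    by_cases h : x.val ≤ J
    · rw [cl_of_le par h]
      exact h
    · push Not at h
      have h0 : (0 : Fin (T + 1)) < x := by
        rw [Fin.lt_def]
        exact lt_of_le_of_lt (Nat.zero_le _) h
      rw [cl_of_gt hpar h]
      exact ih (par x) (hpar x h0)

theorem cl_step {J : ℕ} {j : Fin (T + 1)} (hj : j.val = J + 1) (x : Fin (T + 1)) :
    (cl par (J + 1) x = j ∧ cl par J x = par j) ∨
      (cl par (J + 1) x ≠ j ∧ cl par J x = cl par (J + 1) x) := by
  induction x using WellFoundedLT.induction with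
  | _ x ih =>
    have hj0 : (0 : Fin (T + 1)) < j := by
      rw [Fin.lt_def, hj]
      exact Nat.succ_pos _
    have hpj : (par j).val ≤ J := by
      have := hpar j hj0
      rw [Fin.lt_def, hj] at this
      omega
    rcases lt_trichotomy x.val (J + 1) with h | h | h
    · right
      rw [cl_of_le par (by omega), cl_of_le par (by omega)]
      refine ⟨?_, rfl⟩
      intro he
      rw [he] at h
      omega
    · left
      have hx : x = j := Fin.ext (by omega)
      rw [cl_of_le par (by omega), cl_of_gt hpar (by omega), hx]
      exact ⟨rfl, cl_of_le par hpj⟩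
    · have h0 : (0 : Fin (T + 1)) < x := by
        rw [Fin.lt_def]
        exact lt_of_le_of_lt (Nat.zero_le _) h
      rw [cl_of_gt hpar h, cl_of_gt hpar (J := J) (by omega)]
      exact ih (par x) (hpar x h0)

end Climb

section Tops

variable {V : Type*} {T : ℕ} {par : Fin (T + 1) → Fin (T + 1)} {bag : Fin (T + 1) → Finset V}
  {top : V → Fin (T + 1)} (hpar : ∀ i, 0 < i → par i < i)
  (htop : ∀ v b, v ∈ bag b → b ≠ top v → b ≠ 0 ∧ v ∈ bag (par b))
include hpar htop

theorem top_le {v : V} (b : Fin (T + 1)) (h : v ∈ bag b) : top v ≤ b := by
  induction b using WellFoundedLT.induction with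
  | _ b ih =>
    by_cases hb : b = top v
    · exact hb.ge
    · obtain ⟨h0, h1⟩ := htop v b h hb
      have h0' : (0 : Fin (T + 1)) < b := by
        rw [Fin.pos_iff_ne_zero]
        exact h0
      exact (ih (par b) (hpar b h0') h1).trans (hpar b h0').le

theorem bag_cl {J : ℕ} {v : V} (hJ : (top v).val ≤ J) (b : Fin (T + 1)) (h : v ∈ bag b) :
    v ∈ bag (cl par J b) := by
  induction b using WellFoundedLT.induction with
  | _ b ih =>
    by_cases hb : b.val ≤ J
    · rw [cl_of_le par hb]
      exact h
    · push Not at hb
      have hne : b ≠ top v := by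
        rintro rfl
        omega
      obtain ⟨h0, h1⟩ := htop v b h hne
      have h0' : (0 : Fin (T + 1)) < b := by
        rw [Fin.pos_iff_ne_zero]
        exact h0
      rw [cl_of_gt hpar hb]
      exact ih (par b) (hpar b h0') h1

theorem cl_top {J : ℕ} {v : V} (hJ : J < (top v).val) (b : Fin (T + 1)) (h : v ∈ bag b) :
    cl par J b = cl par J (top v) := by
  induction b using WellFoundedLT.induction with
  | _ b ih =>
    by_cases hb : b = top v
    · rw [hb]
    · obtain ⟨h0, h1⟩ := htop v b h hb
      have h0' : (0 : Fin (T + 1)) < b := by
        rw [Fin.pos_iff_ne_zero]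
        exact h0
      have hle := top_le hpar htop b h
      have hlt : J < b.val := lt_of_lt_of_le hJ hle
      rw [cl_of_gt hpar hlt]
      exact ih (par b) (hpar b h0') h1

end Tops

section Sweep

variable {V : Type*} [Fintype V] [DecidableEq V] {T : ℕ} (par : Fin (T + 1) → Fin (T + 1))
  (bag : Fin (T + 1) → Finset V) (top : V → Fin (T + 1))

/-- pending vertices below the node `i` -/
def pd (J : ℕ) (pend : Finset V) (i : Fin (T + 1)) : Finset V :=
  pend.filter fun v => cl par J (top v) = i

/-- the state of the sweep when the nodes with numbers above `J` have been processed -/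
structure State (μ o : V → ℕ) (W Q a t J : ℕ) (pend : Finset V) (E : Fin (T + 1) → Finset V)
    (K : ℕ) : Prop where
  bags : ∀ b, (∀ u ∈ bag b, u ∈ pd par top J pend (cl par J b) ∨ u ∈ E (cl par J b) ∨
      u ∈ bag (cl par J b)) ∨
    (∀ v ∈ bag b, (v ∈ pd par top J pend (cl par J b) ∨ v ∈ bag (cl par J b)) → v ∈ E (cl par J b))
  own : ∀ v, (top v).val ≤ J → v ∈ pend ∨ v ∈ E (top v)
  light : ∀ i : Fin (T + 1), i.val ≤ J → ∑ v ∈ pd par top J pend i, μ v < W
  cost : K * W + ∑ v ∈ pend, μ v ≤ ∑ v, μ v
  out : ∑ v ∈ pendᶜ, o v + a * ∑ i ∈ univ.filter (fun i : Fin (T + 1) => i.val ≤ J), (E i).card ≤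
    K * (Q + 2 * a * (t + 1))

variable {par bag top}

omit [Fintype V] [DecidableEq V] in
theorem mem_pd {J : ℕ} {pend : Finset V} {i : Fin (T + 1)} {v : V} :
    v ∈ pd par top J pend i ↔ v ∈ pend ∧ cl par J (top v) = i := by
  simp [pd]

variable (hpar : ∀ i, 0 < i → par i < i)
  (htopm : ∀ v, v ∈ bag (top v))
  (htop0 : ∀ v b, v ∈ bag b → (b = 0 ∨ v ∉ bag (par b)) → b = top v)
include hpar htopm htop0

theorem step {μ o : V → ℕ} {W Q a t J : ℕ} (hcard : ∀ i, (bag i).card ≤ t + 1)
    (adj : V → V → Prop) (hadj : ∀ u v, adj u v → ∃ i, u ∈ bag i ∧ v ∈ bag i)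
    (hpiece : ∀ X D : Finset V, (∀ v ∈ X, v ∉ D → ∀ u, adj u v → u ∈ X ∪ D) →
      ∑ v ∈ X, μ v < 2 * W → ∑ v ∈ X, o v ≤ Q + a * D.card)
    (hJ : J + 1 ≤ T) {pend : Finset V} {E : Fin (T + 1) → Finset V} {K : ℕ}
    (S : State par bag top μ o W Q a t (J + 1) pend E K) :
    ∃ pend' E' K', State par bag top μ o W Q a t J pend' E' K' := by
  classical
  have htop : ∀ v b, v ∈ bag b → b ≠ top v → b ≠ 0 ∧ v ∈ bag (par b) := by
    intro v b h hb
    by_contra hcon
    apply hb
    apply htop0 v b h
    by_cases h0 : b = 0
    · exact Or.inl h0
    · right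
      intro h1
      exact hcon ⟨h0, h1⟩
  obtain ⟨j, hj⟩ : ∃ j : Fin (T + 1), j.val = J + 1 := ⟨⟨J + 1, by omega⟩, rfl⟩
  set q := par j with hq
  have hj0 : (0 : Fin (T + 1)) < j := by
    rw [Fin.lt_def, hj]
    exact Nat.succ_pos _
  have hqJ : q.val ≤ J := by
    have := hpar j hj0
    rw [Fin.lt_def, hj] at this
    omega
  have hqj : q ≠ j := by
    intro h
    rw [h, hj] at hqJ
    omega
  set Xq := pd par top (J + 1) pend q with hXq
  set Xj := pd par top (J + 1) pend j with hXj
  have hdisj : Disjoint Xq Xj := by
    rw [Finset.disjoint_left]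
    intro v h1 h2
    rw [hXq, mem_pd] at h1
    rw [hXj, mem_pd] at h2
    exact hqj (h1.2.symm.trans h2.2)
  -- vertices of `bag j` outside of `bag q`
  have hbagj : ∀ u ∈ bag j, u ∉ bag q → u ∈ Xj ∨ u ∈ E j := by
    intro u hu hu'
    have h1 : j = top u := htop0 u j hu (Or.inr hu')
    rcases S.own u (by rw [← h1, hj]) with h2 | h2
    · left
      rw [hXj, mem_pd]
      refine ⟨h2, ?_⟩
      rw [← h1]
      exact cl_of_le par hj.le
    · right
      rw [h1]
      exact h2
  -- new pending sets
  have hpd : ∀ (P : Finset V) (i : Fin (T + 1)), i ≠ q → i.val ≤ J →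
      pd par top J P i = pd par top (J + 1) P i := by
    intro P i hi hiJ
    ext v
    rw [mem_pd, mem_pd]
    rcases cl_step hpar hj (top v) with ⟨h1, h2⟩ | ⟨h1, h2⟩
    · rw [h1, h2]
      constructor
      · rintro ⟨-, h⟩
        exact absurd h.symm hi
      · rintro ⟨-, h⟩
        rw [← h, hj] at hiJ
        omega
    · rw [h2]
  have hpdq : ∀ P : Finset V, pd par top J P q = pd par top (J + 1) P q ∪ pd par top (J + 1) P j := by
    intro P
    ext v
    rw [mem_union, mem_pd, mem_pd, mem_pd]
    rcases cl_step hpar hj (top v) with ⟨h1, h2⟩ | ⟨h1, h2⟩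
    · rw [h1, h2]
      constructor
      · rintro ⟨h, -⟩
        exact Or.inr ⟨h, rfl⟩
      · rintro (⟨h, -⟩ | ⟨h, -⟩)
        · exact ⟨h, rfl⟩
        · exact ⟨h, rfl⟩
    · rw [h2]
      constructor
      · intro h
        exact Or.inl h
      · rintro (h | ⟨-, h⟩)
        · exact h
        · exact absurd h h1
  have hfilter : (univ.filter fun i : Fin (T + 1) => i.val ≤ J + 1) =
      insert j (univ.filter fun i : Fin (T + 1) => i.val ≤ J) := by
    ext i
    simp only [mem_filter, mem_univ, true_and, mem_insert]
    constructor
    · intro h
      by_cases hi : i = j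
      · exact Or.inl hi
      · right
        have : i.val ≠ J + 1 := fun h' => hi (Fin.ext (h'.trans hj.symm))
        omega
    · rintro (h | h)
      · rw [h, hj]
      · omega
  have hjn : j ∉ (univ.filter fun i : Fin (T + 1) => i.val ≤ J) := by
    simp only [mem_filter, mem_univ, true_and]
    omega
  have hqm : q ∈ (univ.filter fun i : Fin (T + 1) => i.val ≤ J) := by
    simp only [mem_filter, mem_univ, true_and]
    exact hqJ
  have hEsum : ∑ i ∈ univ.filter (fun i : Fin (T + 1) => i.val ≤ J + 1), (E i).card =
      (E j).card + ((E q).card +
        ∑ i ∈ (univ.filter (fun i : Fin (T + 1) => i.val ≤ J)).erase q, (E i).card) := by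
    rw [hfilter, Finset.sum_insert hjn, ← Finset.add_sum_erase _ _ hqm]
  have hE'sum : ∀ Z : Finset V, ∑ i ∈ univ.filter (fun i : Fin (T + 1) => i.val ≤ J),
      ((fun i => if i = q then Z else E i) i).card =
      Z.card + ∑ i ∈ (univ.filter (fun i : Fin (T + 1) => i.val ≤ J)).erase q, (E i).card := by
    intro Z
    rw [← Finset.add_sum_erase _ _ hqm]
    congr 1
    · simp
    · apply Finset.sum_congr rfl
      intro i hi
      have : i ≠ q := (Finset.mem_erase.1 hi).1
      simp [this]
  by_cases hcut : ∑ v ∈ Xq, μ v + ∑ v ∈ Xj, μ v < W
  · -- merge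
    refine ⟨pend, fun i => if i = q then E q ∪ E j else E i, K, ?_, ?_, ?_, S.cost, ?_⟩
    · intro b
      rcases cl_step hpar hj b with ⟨h1, h2⟩ | ⟨h1, h2⟩
      · rw [h2, ← hq, hpdq]
        simp only [if_true]
        rcases S.bags b with h | h
        · left
          intro u hu
          rcases h u hu with h3 | h3 | h3
          · rw [h1] at h3
            exact Or.inl (mem_union_right _ h3)
          · rw [h1] at h3
            exact Or.inr (Or.inl (mem_union_right _ h3))
          · rw [h1] at h3
            by_cases h4 : u ∈ bag q
            · exact Or.inr (Or.inr h4)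
            · rcases hbagj u h3 h4 with h5 | h5
              · exact Or.inl (mem_union_right _ h5)
              · exact Or.inr (Or.inl (mem_union_right _ h5))
        · right
          rw [h1] at h
          intro v hv hv'
          have hkey : (v ∈ pd par top (J + 1) pend j ∨ v ∈ bag j) → v ∈ E q ∪ E j := by
            intro h3
            exact mem_union_right _ (h v hv h3)
          rcases hv' with h3 | h3
          · rw [mem_union] at h3
            rcases h3 with h3 | h3
            · rw [mem_pd] at h3
              by_cases h4 : (top v).val ≤ J + 1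
              · apply hkey
                right
                have := bag_cl hpar htop h4 b hv
                rw [h1] at this
                exact this
              · push Not at h4
                have := cl_top hpar htop h4 b hv
                rw [h1, h3.2] at this
                exact absurd this.symm hqj
            · exact hkey (Or.inl h3)
          · apply hkey
            right
            have h4 : (top v).val ≤ J + 1 := by
              have := top_le hpar htop q h3
              rw [Fin.le_def] at this
              omega
            have := bag_cl hpar htop h4 b hv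
            rw [h1] at this
            exact this
      · rw [h2]
        by_cases hiq : cl par (J + 1) b = q
        · rw [hiq, hpdq]
          simp only [if_true]
          have hS := S.bags b
          rw [hiq] at hS
          rcases hS with h | h
          · left
            intro u hu
            rcases h u hu with h3 | h3 | h3
            · exact Or.inl (mem_union_left _ h3)
            · exact Or.inr (Or.inl (mem_union_left _ h3))
            · exact Or.inr (Or.inr h3)
          · right
            intro v hv hv'
            rcases hv' with h3 | h3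
            · rw [mem_union] at h3
              rcases h3 with h3 | h3
              · exact mem_union_left _ (h v hv (Or.inl h3))
              · exfalso
                rw [mem_pd] at h3
                by_cases h4 : (top v).val ≤ J + 1
                · have h5 := bag_cl hpar htop h4 b hv
                  rw [hiq] at h5
                  have h6 := top_le hpar htop q h5
                  rw [cl_of_le par h4] at h3
                  rw [h3.2, Fin.le_def, hj] at h6
                  omega
                · push Not at h4
                  have := cl_top hpar htop h4 b hv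
                  rw [hiq, h3.2] at this
                  exact hqj this
            · exact mem_union_left _ (h v hv (Or.inr h3))
        · have hle : (cl par (J + 1) b).val ≤ J := by
            have h3 := cl_val hpar (J + 1) b
            have h4 : (cl par (J + 1) b).val ≠ J + 1 := fun h' => h1 (Fin.ext (h'.trans hj.symm))
            omega
          rw [hpd pend _ hiq hle]
          simp only [hiq, if_false]
          exact S.bags b
    · intro v hv
      rcases S.own v (by omega) with h | h
      · exact Or.inl h
      · right
        by_cases hvq : top v = q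
        · simp only [hvq, if_true]
          rw [hvq] at h
          exact mem_union_left _ h
        · simp only [hvq, if_false]
          exact h
    · intro i hi
      by_cases hiq : i = q
      · rw [hiq, hpdq, Finset.sum_union hdisj]
        exact hcut
      · rw [hpd pend i hiq hi]
        exact S.light i (by omega)
    · have h1 := S.out
      rw [hEsum] at h1
      rw [hE'sum]
      have h2 : (E q ∪ E j).card ≤ (E q).card + (E j).card := card_union_le _ _
      refine le_trans ?_ h1
      apply Nat.add_le_add_left
      apply Nat.mul_le_mul_left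
      omega
  · -- cut
    push Not at hcut
    have hsub : Xq ∪ Xj ⊆ pend := by
      intro v hv
      rw [mem_union] at hv
      rcases hv with h | h
      · rw [hXq, mem_pd] at h
        exact h.1
      · rw [hXj, mem_pd] at h
        exact h.1
    have hpd' : ∀ i : Fin (T + 1), i ≠ q → i.val ≤ J →
        pd par top J (pend \ (Xq ∪ Xj)) i = pd par top (J + 1) pend i := by
      intro i hi hiJ
      rw [hpd _ i hi hiJ]
      ext v
      rw [mem_pd, mem_pd, mem_sdiff, mem_union]
      constructor
      · rintro ⟨⟨h1, -⟩, h2⟩
        exact ⟨h1, h2⟩
      · rintro ⟨h1, h2⟩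
        refine ⟨⟨h1, ?_⟩, h2⟩
        rintro (h | h)
        · rw [hXq, mem_pd] at h
          exact hi (h2.symm.trans h.2)
        · rw [hXj, mem_pd] at h
          have : i = j := h2.symm.trans h.2
          rw [this, hj] at hiJ
          omega
    have hpdq' : pd par top J (pend \ (Xq ∪ Xj)) q = ∅ := by
      rw [hpdq]
      apply Finset.eq_empty_of_forall_notMem
      intro v hv
      rw [mem_union, mem_pd, mem_pd, mem_sdiff, mem_union] at hv
      rcases hv with ⟨⟨h1, h2⟩, h3⟩ | ⟨⟨h1, h2⟩, h3⟩
      · apply h2
        left
        rw [hXq, mem_pd]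
        exact ⟨h1, h3⟩
      · apply h2
        right
        rw [hXj, mem_pd]
        exact ⟨h1, h3⟩
    refine ⟨pend \ (Xq ∪ Xj), fun i => if i = q then bag q else E i, K + 1, ?_, ?_, ?_, ?_, ?_⟩
    · intro b
      by_cases hiq : cl par J b = q
      · rw [hiq, hpdq']
        simp only [if_true]
        right
        intro v _ hv'
        rcases hv' with h | h
        · simp at h
        · exact h
      · rcases cl_step hpar hj b with ⟨h1, h2⟩ | ⟨h1, h2⟩
        · exact absurd h2 hiq
        · have hle := cl_val hpar J b
          rw [hpd' _ hiq hle, h2]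
          rw [h2] at hiq
          simp only [hiq, if_false]
          exact S.bags b
    · intro v hv
      by_cases hvq : top v = q
      · right
        simp only [hvq, if_true]
        rw [← hvq]
        exact htopm v
      · simp only [hvq, if_false]
        rcases S.own v (by omega) with h | h
        · left
          rw [mem_sdiff, mem_union]
          refine ⟨h, ?_⟩
          rintro (h1 | h1)
          · rw [hXq, mem_pd, cl_of_le par (by omega)] at h1
            exact hvq h1.2
          · rw [hXj, mem_pd, cl_of_le par (by omega)] at h1
            rw [h1.2, hj] at hv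
            omega
        · exact Or.inr h
    · intro i hi
      by_cases hiq : i = q
      · rw [hiq, hpdq', Finset.sum_empty]
        have := S.light i (by omega)
        omega
      · rw [hpd' i hiq hi]
        exact S.light i (by omega)
    · have h1 := S.cost
      have h2 : ∑ v ∈ pend \ (Xq ∪ Xj), μ v + ∑ v ∈ Xq ∪ Xj, μ v = ∑ v ∈ pend, μ v :=
        Finset.sum_sdiff hsub
      rw [Finset.sum_union hdisj] at h2
      rw [add_mul, one_mul]
      omega
    · have h1 := S.out
      rw [hEsum] at h1
      rw [hE'sum]
      have h3 := hpiece (Xq ∪ Xj) (E q ∪ E j ∪ bag q) (by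
        intro v hv hvD u huv
        rw [mem_union, mem_union] at hvD
        push Not at hvD
        obtain ⟨⟨hv1, hv2⟩, hv3⟩ := hvD
        obtain ⟨b, hub, hvb⟩ := hadj u v huv
        rw [mem_union] at hv
        rcases hv with hv | hv
        · have hv' := hv
          rw [hXq, mem_pd] at hv'
          have h4 : ¬ (top v).val ≤ J + 1 := by
            intro h4
            rw [cl_of_le par h4] at hv'
            apply hv3
            rw [← hv'.2]
            exact htopm v
          push Not at h4
          have h5 := cl_top hpar htop h4 b hvb
          rw [hv'.2] at h5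
          have hS := S.bags b
          rw [h5] at hS
          rcases hS with h | h
          · rcases h u hub with h6 | h6 | h6
            · exact mem_union_left _ (mem_union_left _ h6)
            · exact mem_union_right _ (mem_union_left _ (mem_union_left _ h6))
            · exact mem_union_right _ (mem_union_right _ h6)
          · exact absurd (h v hvb (Or.inl hv)) hv1
        · have hv' := hv
          rw [hXj, mem_pd] at hv'
          have h5 : cl par (J + 1) b = j := by
            by_cases h4 : (top v).val ≤ J + 1
            · rw [cl_of_le par h4] at hv'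
              have h6 := bag_cl hpar htop h4 b hvb
              have h7 := top_le hpar htop _ h6
              have h8 := cl_val hpar (J + 1) b
              rw [hv'.2, Fin.le_def, hj] at h7
              exact Fin.ext (by omega)
            · push Not at h4
              rw [cl_top hpar htop h4 b hvb, hv'.2]
          have hS := S.bags b
          rw [h5] at hS
          rcases hS with h | h
          · rcases h u hub with h6 | h6 | h6
            · exact mem_union_left _ (mem_union_right _ h6)
            · exact mem_union_right _ (mem_union_left _ (mem_union_right _ h6))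
            · by_cases h7 : u ∈ bag q
              · exact mem_union_right _ (mem_union_right _ h7)
              · rcases hbagj u h6 h7 with h8 | h8
                · exact mem_union_left _ (mem_union_right _ h8)
                · exact mem_union_right _ (mem_union_left _ (mem_union_right _ h8))
          · exact absurd (h v hvb (Or.inl hv)) hv2) (by
        rw [Finset.sum_union hdisj]
        have e1 : ∑ v ∈ Xq, μ v < W := S.light q (by omega)
        have e2 : ∑ v ∈ Xj, μ v < W := S.light j (by omega)
        omega)
      have h4 : (E q ∪ E j ∪ bag q).card ≤ (E q).card + (E j).card + (t + 1) := by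
        have e1 := card_union_le (E q ∪ E j) (bag q)
        have e2 := card_union_le (E q) (E j)
        have e3 := hcard q
        omega
      have h5 : ∑ v ∈ (pend \ (Xq ∪ Xj))ᶜ, o v = ∑ v ∈ pendᶜ, o v + ∑ v ∈ Xq ∪ Xj, o v := by
        rw [← Finset.sum_union]
        · apply Finset.sum_congr _ fun _ _ => rfl
          ext v
          simp only [mem_compl, mem_sdiff, mem_union]
          constructor
          · intro h
            by_cases hv : v ∈ pend
            · right
              by_contra h'
              exact h ⟨hv, h'⟩
            · exact Or.inl hv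
          · rintro (h | h) ⟨h1, h2⟩
            · exact h h1
            · exact h2 h
        · rw [Finset.disjoint_left]
          intro v h1 h2
          exact (mem_compl.1 h1) (hsub h2)
      have h6 := hcard q
      rw [h5]
      set R := ∑ i ∈ (univ.filter (fun i : Fin (T + 1) => i.val ≤ J)).erase q, (E i).card
      have h7 : a * (E q ∪ E j ∪ bag q).card ≤ a * ((E q).card + (E j).card + (t + 1)) :=
        Nat.mul_le_mul_left _ h4
      have h8 : a * ((bag q).card + R) ≤ a * ((t + 1) + R) :=
        Nat.mul_le_mul_left _ (by omega)
      calc ∑ v ∈ pendᶜ, o v + ∑ v ∈ Xq ∪ Xj, o v + a * ((bag q).card + R)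
          ≤ ∑ v ∈ pendᶜ, o v + (Q + a * ((E q).card + (E j).card + (t + 1))) +
            a * ((t + 1) + R) :=
            Nat.add_le_add (Nat.add_le_add_left (h3.trans (Nat.add_le_add_left h7 Q)) _) h8
        _ = (∑ v ∈ pendᶜ, o v + a * ((E j).card + ((E q).card + R))) + (Q + 2 * a * (t + 1)) := by
            ring
        _ ≤ K * (Q + 2 * a * (t + 1)) + (Q + 2 * a * (t + 1)) := Nat.add_le_add_right h1 _
        _ = (K + 1) * (Q + 2 * a * (t + 1)) := by ring

end Sweep

/-- Summation over a tree decomposition. If each set `X` of vertices of weight less than `2 W` whose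
neighbours lie in `X ∪ D` has value at most `Q + a |D|`, then the value of the whole graph is at most
`(K + 1) (Q + 2 a (t + 1))`, where `K W` is at most the total weight. -/
theorem tree_sum {V : Type*} [Fintype V] [DecidableEq V] (adj : V → V → Prop) (t : ℕ)
    (hT : HasTreeDec adj t) (μ o : V → ℕ) (W Q a : ℕ) (hμ : ∀ v, μ v ≤ 2) (hW : 2 * (t + 1) < W)
    (hpiece : ∀ X D : Finset V, (∀ v ∈ X, v ∉ D → ∀ u, adj u v → u ∈ X ∪ D) →
      ∑ v ∈ X, μ v < 2 * W → ∑ v ∈ X, o v ≤ Q + a * D.card) :
    ∃ K, K * W ≤ ∑ v, μ v ∧ ∑ v, o v ≤ (K + 1) * (Q + 2 * a * (t + 1)) := by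
  classical
  obtain ⟨T, par, bag, hpar, hcard, huniq, hadj⟩ := hT
  choose top htop huniq' using huniq
  have htopm : ∀ v, v ∈ bag (top v) := fun v => (htop v).1
  have htop0 : ∀ v b, v ∈ bag b → (b = 0 ∨ v ∉ bag (par b)) → b = top v :=
    fun v b h1 h2 => huniq' v b ⟨h1, h2⟩
  have key : ∀ n, n ≤ T → ∃ pend E K, State par bag top μ o W Q a t (T - n) pend E K := by
    intro n
    induction n with
    | zero =>
      intro _
      refine ⟨univ, fun _ => ∅, 0, ?_, ?_, ?_, ?_, ?_⟩
      · intro b
        left
        intro u hu
        right
        right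
        rw [cl_of_le par (by omega)]
        exact hu
      · intro v _
        exact Or.inl (mem_univ v)
      · intro i _
        calc ∑ v ∈ pd par top (T - 0) univ i, μ v ≤ ∑ v ∈ pd par top (T - 0) univ i, 2 :=
              Finset.sum_le_sum fun v _ => hμ v
          _ = 2 * (pd par top (T - 0) univ i).card := by
              rw [Finset.sum_const, smul_eq_mul, mul_comm]
          _ ≤ 2 * (bag i).card := by
              apply Nat.mul_le_mul_left
              apply card_le_card
              intro v hv
              rw [mem_pd, cl_of_le par (by omega)] at hv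
              rw [← hv.2]
              exact htopm v
          _ ≤ 2 * (t + 1) := Nat.mul_le_mul_left _ (hcard i)
          _ < W := hW
      · simp
      · simp
    | succ n ih =>
      intro hn
      obtain ⟨pend, E, K, S⟩ := ih (by omega)
      have e : T - n = (T - (n + 1)) + 1 := by omega
      rw [e] at S
      exact step hpar htopm htop0 hcard adj hadj hpiece (by omega) S
  obtain ⟨pend, E, K, S⟩ := key T le_rfl
  rw [Nat.sub_self] at S
  have hcl : ∀ x, cl par 0 x = 0 := by
    intro x
    apply Fin.ext
    have := cl_val hpar 0 x
    simpa using this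
  have hpd : pd par top 0 pend 0 = pend := by
    ext v
    rw [mem_pd]
    simp [hcl]
  refine ⟨K, ?_, ?_⟩
  · have := S.cost
    omega
  have h1 := hpiece pend (E 0 ∪ bag 0) (by
    intro v hv hvD u huv
    rw [mem_union] at hvD
    push Not at hvD
    obtain ⟨b, hub, hvb⟩ := hadj u v huv
    have hS := S.bags b
    rw [hcl b, hpd] at hS
    rcases hS with h | h
    · rcases h u hub with h6 | h6 | h6
      · exact mem_union_left _ h6
      · exact mem_union_right _ (mem_union_left _ h6)
      · exact mem_union_right _ (mem_union_right _ h6)
    · exact absurd (h v hvb (Or.inl hv)) hvD.1) (by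
    have := S.light 0 (by simp)
    rw [hpd] at this
    omega)
  have h2 := S.out
  have hfilter : (univ.filter fun i : Fin (T + 1) => i.val ≤ 0) = {0} := by
    ext i
    simp only [mem_filter, mem_univ, true_and, mem_singleton]
    constructor
    · intro h
      exact Fin.ext (by simpa using h)
    · rintro rfl
      simp
  rw [hfilter, Finset.sum_singleton] at h2
  have h3 : ∑ v, o v = ∑ v ∈ pend, o v + ∑ v ∈ pendᶜ, o v := (Finset.sum_add_sum_compl _ _).symm
  have h4 : (E 0 ∪ bag 0).card ≤ (E 0).card + (t + 1) :=
    (card_union_le _ _).trans (Nat.add_le_add_left (hcard 0) _)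
  have h5 : a * (E 0 ∪ bag 0).card ≤ a * ((E 0).card + (t + 1)) := Nat.mul_le_mul_left _ h4
  rw [h3]
  have h6 : a * ((E 0).card + (t + 1)) = a * (E 0).card + a * (t + 1) := by ring
  have h7 : (K + 1) * (Q + 2 * a * (t + 1)) =
      K * (Q + 2 * a * (t + 1)) + Q + a * (t + 1) + a * (t + 1) := by ring
  rw [h7]
  rw [h6] at h5
  omega

end Pool.Agent.H522R3.TW
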