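import Mathlib
import Pool.Agent.H522R3.TW.Tree
import Pool.Agent.H522R3.TW.Piece

/-!
# Matrix multiplication circuits: blocks of gates and treewidth
-/

set_option autoImplicit false

open Finset

namespace Pool.Agent.H522R3.TW

open Pool.Agent.H522R2 Pool.Agent.H522R2.Circuit

/-- The gate graph: its vertices are the gates (the inputs are deleted), two gates being joined if
one of them is an input of the other. -/
def gateAdj {F V : Type*} (C : Circuit F V) (g h : {k : Fin C.nodes // IsGate C k}) : Prop :=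
  Feeds C g.1 h.1 ∨ Feeds C h.1 g.1

variable {F : Type*} [Field F] {m : ℕ}

/-- Number of entries of the first matrix read by gates of the block `β`. -/
noncomputable def blockA {ι : Type*} (C : Circuit F (Vars m)) (b : Fin C.nodes → ι) (β : ι) : ℕ :=
  Nat.card {r : Fin m × Fin m // ∃ g, b g = β ∧ Reads C g (.inl r)}

/-- Number of entries of the second matrix read by gates of the block `β`. -/
noncomputable def blockB {ι : Type*} (C : Circuit F (Vars m)) (b : Fin C.nodes → ι) (β : ι) : ℕ :=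
  Nat.card {r : Fin m × Fin m // ∃ g, b g = β ∧ Reads C g (.inr r)}

/-- Number of gates outside of the block `β` that are inputs of gates of the block `β`. -/
noncomputable def blockIn {ι : Type*} (C : Circuit F (Vars m)) (b : Fin C.nodes → ι) (β : ι) : ℕ :=
  Nat.card {h : Fin C.nodes // IsGate C h ∧ b h ≠ β ∧ ∃ g, b g = β ∧ Feeds C h g}

omit [Field F] in
theorem isGate_of_feeds {V : Type*} {C : Circuit F V} {h g : Fin C.nodes} (hf : Feeds C h g) :
    IsGate C g := by
  obtain ⟨i, j, h1, _⟩ := hf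
  exact ⟨i, j, h1⟩

theorem block_bound {ι : Type*} [Fintype ι] (C : Circuit F (Vars m)) (b : Fin C.nodes → ι)
    (hC : ∀ i j, ∃ k, C.poly k = entry F m i j) :
    m ^ 4 ≤ 4 * ∑ β, blockA C b β * blockB C b β + 4 * m ^ 2 * ∑ β, blockIn C b β := by
  classical
  choose out hout using hC
  have hβ : ∀ β, m ^ 2 * (univ.filter fun p : Fin m × Fin m => b (out p.1 p.2) = β).card ≤
      4 * (blockA C b β * blockB C b β) + 4 * m ^ 2 * blockIn C b β := by
    intro β
    have h1 := piece C (univ.filter fun g => IsGate C g ∧ b g = β)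
      (univ.filter fun h => IsGate C h ∧ b h ≠ β ∧ ∃ g, b g = β ∧ Feeds C h g) (by
        intro g hg
        exact (mem_filter.1 hg).2.1) (by
        intro g hg _ h hf hh
        have hg' := (mem_filter.1 hg).2
        by_cases hb : b h = β
        · left
          exact mem_filter.2 ⟨mem_univ _, hh, hb⟩
        · right
          exact mem_filter.2 ⟨mem_univ _, hh, hb, g, hg'.2, hf⟩)
      (univ.filter fun r => ∃ g, b g = β ∧ Reads C g (.inl r))
      (univ.filter fun r => ∃ g, b g = β ∧ Reads C g (.inr r)) (by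
        intro g hg r hr
        exact mem_filter.2 ⟨mem_univ _, g, (mem_filter.1 hg).2.2, hr⟩) (by
        intro g hg r hr
        exact mem_filter.2 ⟨mem_univ _, g, (mem_filter.1 hg).2.2, hr⟩)
      (univ.filter fun p : Fin m × Fin m => b (out p.1 p.2) = β) (by
        intro p hp
        refine ⟨out p.1 p.2, mem_filter.2 ⟨mem_univ _, ?_, (mem_filter.1 hp).2⟩, hout p.1 p.2⟩
        exact isGate_of_entry C _ _ _ (hout p.1 p.2))
    have e1 : blockA C b β = (univ.filter fun r : Fin m × Fin m =>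
        ∃ g, b g = β ∧ Reads C g (.inl r)).card := by
      rw [blockA, Nat.card_eq_fintype_card, Fintype.card_subtype]
    have e2 : blockB C b β = (univ.filter fun r : Fin m × Fin m =>
        ∃ g, b g = β ∧ Reads C g (.inr r)).card := by
      rw [blockB, Nat.card_eq_fintype_card, Fintype.card_subtype]
    have e3 : blockIn C b β = (univ.filter fun h =>
        IsGate C h ∧ b h ≠ β ∧ ∃ g, b g = β ∧ Feeds C h g).card := by
      rw [blockIn, Nat.card_eq_fintype_card, Fintype.card_subtype]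
    rw [e1, e2, e3]
    exact h1
  have htot : ∑ β, (univ.filter fun p : Fin m × Fin m => b (out p.1 p.2) = β).card = m ^ 2 := by
    have := Finset.card_eq_sum_card_fiberwise (s := (univ : Finset (Fin m × Fin m)))
      (t := (univ : Finset ι)) (f := fun p => b (out p.1 p.2)) (fun _ _ => mem_univ _)
    rw [← this, card_univ, Fintype.card_prod, Fintype.card_fin]
    ring
  calc m ^ 4 = m ^ 2 * m ^ 2 := by ring
    _ = ∑ β, m ^ 2 * (univ.filter fun p : Fin m × Fin m => b (out p.1 p.2) = β).card := by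
        rw [← Finset.mul_sum, htot]
    _ ≤ ∑ β, (4 * (blockA C b β * blockB C b β) + 4 * m ^ 2 * blockIn C b β) :=
        Finset.sum_le_sum fun β _ => hβ β
    _ = _ := by rw [Finset.sum_add_distrib, ← Finset.mul_sum, ← Finset.mul_sum]

theorem reads_le_size {V : Type*} [Finite V] (C : Circuit F V) : readCount C ≤ 2 * C.size := by
  classical
  have := Fintype.ofFinite V
  rw [readCount_eq]
  have h1 : ∑ k, (readSet C k).card =
      ∑ k ∈ univ.filter (fun k => IsGate C k), (readSet C k).card := by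
    symm
    apply Finset.sum_subset (filter_subset _ _)
    intro k _ hk
    rw [card_eq_zero, Finset.eq_empty_iff_forall_notMem]
    intro x hx
    rw [mem_readSet] at hx
    obtain ⟨h, hf, _⟩ := hx
    exact hk (mem_filter.2 ⟨mem_univ _, isGate_of_feeds hf⟩)
  rw [h1]
  have h2 : C.size = (univ.filter (fun k => IsGate C k)).card := by
    rw [size, Nat.card_eq_fintype_card, Fintype.card_subtype]
    congr 1
    ext k
    simp only [mem_filter, mem_univ, true_and, IsGate]
    constructor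
    · rintro (⟨i, j, h⟩ | ⟨i, j, h⟩)
      · exact ⟨i, j, Or.inl h⟩
      · exact ⟨i, j, Or.inr h⟩
    · rintro ⟨i, j, h | h⟩
      · exact Or.inl ⟨i, j, h⟩
      · exact Or.inr ⟨i, j, h⟩
  rw [h2]
  calc ∑ k ∈ univ.filter (fun k => IsGate C k), (readSet C k).card
      ≤ ∑ k ∈ univ.filter (fun k => IsGate C k), 2 :=
        Finset.sum_le_sum fun k _ => card_readSet_le C k
    _ = _ := by rw [Finset.sum_const, smul_eq_mul, mul_comm]

open Classical in
theorem card_RA_RB (C : Circuit F (Vars m)) (s : Finset (Fin C.nodes)) :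
    (univ.filter fun r : Fin m × Fin m => ∃ g ∈ s, Reads C g (.inl r)).card +
      (univ.filter fun r : Fin m × Fin m => ∃ g ∈ s, Reads C g (.inr r)).card ≤
      ∑ g ∈ s, (readSet C g).card := by
  have h1 : (univ.filter fun r : Fin m × Fin m => ∃ g ∈ s, Reads C g (.inl r)).card +
      (univ.filter fun r : Fin m × Fin m => ∃ g ∈ s, Reads C g (.inr r)).card =
      ((univ.filter fun r : Fin m × Fin m => ∃ g ∈ s, Reads C g (.inl r)).disjSum
      (univ.filter fun r : Fin m × Fin m => ∃ g ∈ s, Reads C g (.inr r))).card := by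
    rw [card_disjSum]
  rw [h1]
  refine le_trans (card_le_card ?_) card_biUnion_le
  intro x hx
  rw [mem_disjSum] at hx
  rcases hx with ⟨r, hr, rfl⟩ | ⟨r, hr, rfl⟩
  · obtain ⟨g, hg, h⟩ := (mem_filter.1 hr).2
    exact mem_biUnion.2 ⟨g, hg, mem_readSet.2 h⟩
  · obtain ⟨g, hg, h⟩ := (mem_filter.1 hr).2
    exact mem_biUnion.2 ⟨g, hg, mem_readSet.2 h⟩

theorem prod_le_of_add {x y W : ℕ} (h : x + y ≤ 2 * W) : x * y ≤ W ^ 2 := by
  zify at h ⊢
  nlinarith [sq_nonneg ((x : ℤ) - y), sq_nonneg ((x : ℤ) + y)]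

/-- every circuit reads many entries -/
theorem reads_lower (C : Circuit F (Vars m)) (hC : ∀ i j, ∃ k, C.poly k = entry F m i j) :
    m ^ 2 ≤ readCount C := by
  classical
  choose out hout using hC
  have h1 := piece C (univ.filter fun g => IsGate C g) ∅ (by
      intro g hg
      exact (mem_filter.1 hg).2) (by
      intro g _ _ h _ hh
      exact Or.inl (mem_filter.2 ⟨mem_univ _, hh⟩))
    (univ.filter fun r => ∃ g ∈ (univ : Finset (Fin C.nodes)), Reads C g (.inl r))
    (univ.filter fun r => ∃ g ∈ (univ : Finset (Fin C.nodes)), Reads C g (.inr r)) (by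
      intro g _ r hr
      exact mem_filter.2 ⟨mem_univ _, g, mem_univ _, hr⟩) (by
      intro g _ r hr
      exact mem_filter.2 ⟨mem_univ _, g, mem_univ _, hr⟩) univ (by
      intro p _
      exact ⟨out p.1 p.2, mem_filter.2 ⟨mem_univ _, isGate_of_entry C _ _ _ (hout p.1 p.2)⟩,
        hout p.1 p.2⟩)
  have h2 := card_RA_RB C univ
  rw [← readCount_eq] at h2
  rw [card_empty, mul_zero, add_zero, card_univ, Fintype.card_prod, Fintype.card_fin] at h1
  set x := (univ.filter fun r : Fin m × Fin m => ∃ g ∈ (univ : Finset (Fin C.nodes)),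
    Reads C g (.inl r)).card
  set y := (univ.filter fun r : Fin m × Fin m => ∃ g ∈ (univ : Finset (Fin C.nodes)),
    Reads C g (.inr r)).card
  by_contra hcon
  push Not at hcon
  have h3 : x + y < m ^ 2 := lt_of_le_of_lt h2 hcon
  have h4 : 4 * (x * y) ≤ (x + y) ^ 2 := by
    zify
    nlinarith [sq_nonneg ((x : ℤ) - y)]
  have h5 : (x + y) ^ 2 < (m ^ 2) ^ 2 := Nat.pow_lt_pow_left h3 (by norm_num)
  have h6 : m ^ 2 * (m * m) = (m ^ 2) ^ 2 := by ring
  omega

theorem tree_bound_aux (C : Circuit F (Vars m)) (hC : ∀ i j, ∃ k, C.poly k = entry F m i j)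
    (t W : ℕ) (hT : HasTreeDec (gateAdj C) t) (hW : 2 * (t + 1) < W) :
    ∃ K, K * W ≤ readCount C ∧ m ^ 4 ≤ (K + 1) * (4 * W ^ 2 + 8 * m ^ 2 * (t + 1)) := by
  classical
  choose out hout using hC
  have hgate : ∀ p : Fin m × Fin m, IsGate C (out p.1 p.2) := fun p =>
    isGate_of_entry C _ _ _ (hout p.1 p.2)
  obtain ⟨K, h1, h2⟩ := tree_sum (gateAdj C) t hT (fun v => (readSet C v.1).card)
    (fun v => m ^ 2 * (univ.filter fun p : Fin m × Fin m => out p.1 p.2 = v.1).card) W (4 * W ^ 2)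
    (4 * m ^ 2) (fun v => card_readSet_le C v.1) hW (by
      intro X D hcl hX
      have h3 := piece C (X.map (Function.Embedding.subtype _)) (D.map (Function.Embedding.subtype _))
        (by
          intro g hg
          rw [mem_map] at hg
          obtain ⟨v, _, rfl⟩ := hg
          exact v.2) (by
          intro g hg hgD h hf hh
          rw [mem_map] at hg
          obtain ⟨v, hv, rfl⟩ := hg
          have hvD : v ∉ D := by
            intro hvD
            exact hgD (mem_map_of_mem _ hvD)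
          have h4 := hcl v hv hvD ⟨h, hh⟩ (Or.inl hf)
          rw [mem_union] at h4
          rcases h4 with h4 | h4
          · left
            exact mem_map.2 ⟨_, h4, rfl⟩
          · right
            exact mem_map.2 ⟨_, h4, rfl⟩)
        (univ.filter fun r => ∃ g ∈ X.map (Function.Embedding.subtype _), Reads C g (.inl r))
        (univ.filter fun r => ∃ g ∈ X.map (Function.Embedding.subtype _), Reads C g (.inr r)) (by
          intro g hg r hr
          exact mem_filter.2 ⟨mem_univ _, g, hg, hr⟩) (by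
          intro g hg r hr
          exact mem_filter.2 ⟨mem_univ _, g, hg, hr⟩)
        (univ.filter fun p : Fin m × Fin m =>
          out p.1 p.2 ∈ X.map (Function.Embedding.subtype _)) (by
          intro p hp
          exact ⟨out p.1 p.2, (mem_filter.1 hp).2, hout p.1 p.2⟩)
      have h4 := card_RA_RB C (X.map (Function.Embedding.subtype _))
      rw [Finset.sum_map] at h4
      have h5 := prod_le_of_add (W := W) (h4.trans hX.le)
      rw [card_map] at h3
      have h6 : ∑ v ∈ X, m ^ 2 * (univ.filter fun p : Fin m × Fin m => out p.1 p.2 = v.1).card =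
          m ^ 2 * (univ.filter fun p : Fin m × Fin m =>
          out p.1 p.2 ∈ X.map (Function.Embedding.subtype _)).card := by
        rw [← Finset.mul_sum]
        congr 1
        rw [← card_biUnion]
        · congr 1
          ext p
          simp only [mem_biUnion, mem_filter, mem_univ, true_and, mem_map,
            Function.Embedding.subtype_apply]
          constructor
          · rintro ⟨v, hv, h⟩
            exact ⟨v, hv, h.symm⟩
          · rintro ⟨v, hv, h⟩
            exact ⟨v, hv, h.symm⟩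
        · intro v _ w _ hne
          rw [Function.onFun, Finset.disjoint_left]
          intro p hp hp'
          simp only [mem_filter, mem_univ, true_and] at hp hp'
          exact hne (Subtype.ext (hp.symm.trans hp'))
      rw [h6]
      omega)
  refine ⟨K, ?_, ?_⟩
  · refine h1.trans ?_
    rw [readCount_eq]
    calc ∑ v : {k : Fin C.nodes // IsGate C k}, (readSet C v.1).card
        = ∑ k ∈ univ.map (Function.Embedding.subtype _), (readSet C k).card := by
          rw [Finset.sum_map]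
          rfl
      _ ≤ ∑ k, (readSet C k).card := Finset.sum_le_sum_of_subset (subset_univ _)
  · have h3 : ∑ v : {k : Fin C.nodes // IsGate C k},
        m ^ 2 * (univ.filter fun p : Fin m × Fin m => out p.1 p.2 = v.1).card = m ^ 4 := by
      rw [← Finset.mul_sum]
      have h4 := Finset.card_eq_sum_card_fiberwise (s := (univ : Finset (Fin m × Fin m)))
        (t := (univ : Finset {k : Fin C.nodes // IsGate C k}))
        (f := fun p => ⟨out p.1 p.2, hgate p⟩) (fun _ _ => mem_univ _)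
      rw [card_univ, Fintype.card_prod, Fintype.card_fin] at h4
      have h5 : ∑ v : {k : Fin C.nodes // IsGate C k},
          (univ.filter fun p : Fin m × Fin m => out p.1 p.2 = v.1).card = m * m := by
        rw [h4]
        apply Finset.sum_congr rfl
        intro v _
        congr 1
        ext p
        simp [Subtype.ext_iff]
      rw [h5]
      ring
    rw [h3] at h2
    refine h2.trans (le_of_eq ?_)
    ring

theorem num_aux {m s L W K : ℕ} (hs : 1 ≤ s) (h : 64 * s ≤ m ^ 2)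
    (hW : W = Nat.sqrt (2 * s * m ^ 2) + 1) (hK : K * W ≤ L)
    (hm : m ^ 4 ≤ (K + 1) * (4 * W ^ 2 + 8 * m ^ 2 * s)) : m ^ 6 ≤ 320 * s * L ^ 2 := by
  set y : ℝ := Real.sqrt (2 * s * m ^ 2) with hy
  have hs' : (1 : ℝ) ≤ s := by exact_mod_cast hs
  have h' : 64 * (s : ℝ) ≤ (m : ℝ) ^ 2 := by exact_mod_cast h
  have hy2 : y ^ 2 = 2 * s * m ^ 2 := Real.sq_sqrt (by positivity)
  have hy0 : 0 ≤ y := Real.sqrt_nonneg _
  have hy11 : 11 ≤ y := by
    rw [hy]
    apply Real.le_sqrt_of_sq_le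
    nlinarith
  have hWy : (W : ℝ) ≤ y + 1 := by
    rw [hW]
    push_cast
    have := Real.nat_sqrt_le_real_sqrt (a := 2 * s * m ^ 2)
    push_cast at this
    linarith
  have hyW : y ≤ W := by
    rw [hW]
    have := Real.real_sqrt_le_nat_sqrt_succ (a := 2 * s * m ^ 2)
    push_cast at this ⊢
    exact this
  have hW0 : (0 : ℝ) ≤ W := Nat.cast_nonneg _
  have hK' : (K : ℝ) * W ≤ L := by exact_mod_cast hK
  have hm' : (m : ℝ) ^ 4 ≤ (K + 1) * (4 * W ^ 2 + 8 * m ^ 2 * s) := by exact_mod_cast hm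
  have hL0 : (0 : ℝ) ≤ L := Nat.cast_nonneg _
  have hK0 : (0 : ℝ) ≤ K := Nat.cast_nonneg _
  have h1 : 8 * (m : ℝ) ^ 2 * s ≤ 4 * W ^ 2 := by
    have : y ^ 2 ≤ W ^ 2 := by gcongr
    rw [hy2] at this
    linarith
  have h2 : (m : ℝ) ^ 4 ≤ 8 * W * L + 8 * W ^ 2 := by
    have h3 : ((K : ℝ) + 1) * (4 * W ^ 2 + 8 * m ^ 2 * s) ≤ (K + 1) * (8 * W ^ 2) := by
      apply mul_le_mul_of_nonneg_left _ (by linarith)
      linarith
    have h4 : ((K : ℝ) + 1) * (8 * W ^ 2) = 8 * W * (K * W) + 8 * W ^ 2 := by ring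
    have h5 : 8 * (W : ℝ) * (K * W) ≤ 8 * W * L := mul_le_mul_of_nonneg_left hK' (by linarith)
    linarith
  have h3 : (W : ℝ) ≤ 12 / 11 * y := by linarith
  have h4 : 32 * y ^ 2 ≤ (m : ℝ) ^ 4 := by
    rw [hy2]
    nlinarith [sq_nonneg (m : ℝ)]
  have h5 : 8 * (W : ℝ) * L ≤ 96 / 11 * y * L := by
    have := mul_le_mul_of_nonneg_right h3 hL0
    linarith
  have h6 : (W : ℝ) ^ 2 ≤ 144 / 121 * y ^ 2 := by
    have : (W : ℝ) ^ 2 ≤ (12 / 11 * y) ^ 2 := by gcongr
    calc (W : ℝ) ^ 2 ≤ (12 / 11 * y) ^ 2 := this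
      _ = 144 / 121 * y ^ 2 := by ring
  have h7 : 85 * (m : ℝ) ^ 4 ≤ 1056 * (y * L) := by nlinarith
  have h8 : (85 * (m : ℝ) ^ 4) ^ 2 ≤ (1056 * (y * L)) ^ 2 := by gcongr
  have h9 : (85 * (m : ℝ) ^ 4) ^ 2 = 7225 * (m ^ 6 * m ^ 2) := by ring
  have h10 : (1056 * (y * L)) ^ 2 = 1115136 * (2 * s * m ^ 2) * L ^ 2 := by
    rw [← hy2]
    ring
  rw [h9, h10] at h8
  have hm2 : (0 : ℝ) < (m : ℝ) ^ 2 := by linarith
  have h11 : (m : ℝ) ^ 6 * m ^ 2 ≤ 320 * s * L ^ 2 * m ^ 2 := by
    have : (0 : ℝ) ≤ s * L ^ 2 * m ^ 2 := by positivity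
    nlinarith
  have h12 : (m : ℝ) ^ 6 ≤ 320 * s * L ^ 2 := le_of_mul_le_mul_right h11 hm2
  exact_mod_cast h12

/-- Circuits of small treewidth are large. -/
theorem tree_bound (C : Circuit F (Vars m)) (hC : ∀ i j, ∃ k, C.poly k = entry F m i j) (t : ℕ)
    (hT : HasTreeDec (gateAdj C) t) : m ^ 6 ≤ 320 * (t + 1) * readCount C ^ 2 := by
  by_cases h : 64 * (t + 1) ≤ m ^ 2
  · obtain ⟨K, h1, h2⟩ := tree_bound_aux C hC t (Nat.sqrt (2 * (t + 1) * m ^ 2) + 1) hT (by
      have : 2 * (t + 1) ≤ Nat.sqrt (2 * (t + 1) * m ^ 2) := by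
        rw [Nat.le_sqrt']
        nlinarith
      omega)
    exact num_aux (by omega) h rfl h1 h2
  · push Not at h
    have h1 := reads_lower C hC
    calc m ^ 6 = m ^ 2 * (m ^ 2) ^ 2 := by ring
      _ ≤ (64 * (t + 1)) * readCount C ^ 2 := Nat.mul_le_mul h.le (Nat.pow_le_pow_left h1 2)
      _ ≤ 320 * (t + 1) * readCount C ^ 2 := by
          apply Nat.mul_le_mul_right
          omega

/-- Treewidth at most `n ^ (1 - ε)`, `n = m ^ 2`. -/
theorem tree_bound_pow (C : Circuit F (Vars m)) (hC : ∀ i j, ∃ k, C.poly k = entry F m i j) (t : ℕ)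
    (hT : HasTreeDec (gateAdj C) t) (ε : ℝ) (hm : 1 ≤ m)
    (ht : (t : ℝ) + 1 ≤ ((m : ℝ) ^ 2) ^ (1 - ε)) :
    ((m : ℝ) ^ 2) ^ (1 + ε / 2) ≤ 36 * C.size := by
  have h1 := tree_bound C hC t hT
  have h2 := reads_le_size C
  have h1' : (m : ℝ) ^ 6 ≤ 320 * (t + 1) * readCount C ^ 2 := by exact_mod_cast h1
  have h2' : (readCount C : ℝ) ≤ 2 * C.size := by exact_mod_cast h2
  set n : ℝ := (m : ℝ) ^ 2 with hn
  have hm1 : (1 : ℝ) ≤ m := by exact_mod_cast hm
  have hn0 : 0 < n := by positivity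
  have hS0 : (0 : ℝ) ≤ C.size := Nat.cast_nonneg _
  have h3 : n ^ 3 ≤ 1280 * n ^ (1 - ε) * (C.size : ℝ) ^ 2 := by
    calc n ^ 3 = (m : ℝ) ^ 6 := by rw [hn]; ring
      _ ≤ 320 * ((t : ℝ) + 1) * (readCount C : ℝ) ^ 2 := h1'
      _ ≤ 320 * n ^ (1 - ε) * (2 * (C.size : ℝ)) ^ 2 := by gcongr
      _ = _ := by ring
  have h4 : n ^ (3 : ℝ) = n ^ (1 - ε) * (n ^ (1 + ε / 2)) ^ 2 := by
    rw [← Real.rpow_natCast (n ^ (1 + ε / 2)) 2, ← Real.rpow_mul hn0.le, ← Real.rpow_add hn0]
    congr 1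
    push_cast
    ring
  have h5 : n ^ (3 : ℝ) = n ^ 3 := by
    rw [← Real.rpow_natCast]
    norm_num
  have hp : 0 < n ^ (1 - ε) := Real.rpow_pos_of_pos hn0 _
  rw [← h5, h4] at h3
  have h6 : (n ^ (1 + ε / 2)) ^ 2 ≤ 1280 * (C.size : ℝ) ^ 2 := by
    have : n ^ (1 - ε) * (n ^ (1 + ε / 2)) ^ 2 ≤ n ^ (1 - ε) * (1280 * (C.size : ℝ) ^ 2) := by
      linarith
    exact le_of_mul_le_mul_left this hp
  have h7 : (n ^ (1 + ε / 2)) ^ 2 ≤ (36 * (C.size : ℝ)) ^ 2 := by nlinarith
  exact le_of_sq_le_sq h7 (by positivity)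

/-- Treewidth at most `size ^ (1 - ε)`. -/
theorem tree_bound_size (C : Circuit F (Vars m)) (hC : ∀ i j, ∃ k, C.poly k = entry F m i j) (t : ℕ)
    (hT : HasTreeDec (gateAdj C) t) (ε : ℝ) (hm : 1 ≤ m)
    (ht : (t : ℝ) + 1 ≤ (C.size : ℝ) ^ (1 - ε)) :
    ((m : ℝ) ^ 2) ^ 3 ≤ 1280 * (C.size : ℝ) ^ (3 - ε) := by
  have h1 := tree_bound C hC t hT
  have h2 := reads_le_size C
  have h1' : (m : ℝ) ^ 6 ≤ 320 * (t + 1) * readCount C ^ 2 := by exact_mod_cast h1
  have h2' : (readCount C : ℝ) ≤ 2 * C.size := by exact_mod_cast h2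
  have h3 := reads_lower C hC
  have hS : 0 < C.size := by
    have : 1 ≤ m ^ 2 := Nat.one_le_pow _ _ hm
    omega
  have hS0 : (0 : ℝ) < C.size := by exact_mod_cast hS
  calc ((m : ℝ) ^ 2) ^ 3 = (m : ℝ) ^ 6 := by ring
    _ ≤ 320 * ((t : ℝ) + 1) * (readCount C : ℝ) ^ 2 := h1'
    _ ≤ 320 * (C.size : ℝ) ^ (1 - ε) * (2 * (C.size : ℝ)) ^ 2 := by gcongr
    _ = 1280 * ((C.size : ℝ) ^ (1 - ε) * (C.size : ℝ) ^ (2 : ℝ)) := by
        rw [show (C.size : ℝ) ^ (2 : ℝ) = (C.size : ℝ) ^ 2 by
          rw [← Real.rpow_natCast]; norm_num]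
        ring
    _ = 1280 * (C.size : ℝ) ^ (3 - ε) := by
        rw [← Real.rpow_add hS0]
        congr 2
        ring

end Pool.Agent.H522R3.TW
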