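import Mathlib
import Pool.Agent.H522R3.TW.Main

/-!
# Circuits with few shared gates have small treewidth
-/

set_option autoImplicit false

open Finset

namespace Pool.Agent.H522R3.TW

open Pool.Agent.H522R2 Pool.Agent.H522R2.Circuit

/-- The gate `h` is shared: it is an input of at least two gates. -/
def IsShared {F V : Type*} (C : Circuit F V) (h : Fin C.nodes) : Prop :=
  IsGate C h ∧ ∃ g g', g ≠ g' ∧ Feeds C h g ∧ Feeds C h g'

/-- The number of shared gates. -/
noncomputable def sharedCount {F V : Type*} (C : Circuit F V) : ℕ :=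
  Nat.card {h : Fin C.nodes // IsShared C h}

variable {F V : Type*} (C : Circuit F V)

theorem feeds_lt {h g : Fin C.nodes} (hf : Feeds C h g) : h < g := by
  obtain ⟨i, j, _, h1 | h1⟩ := hf
  · rw [← h1, Fin.lt_def]
    exact i.2
  · rw [← h1, Fin.lt_def]
    exact j.2

open Classical in
/-- a gate fed by `k`, if there is one -/
noncomputable def nxt (k : Fin C.nodes) : Fin C.nodes :=
  if h : ∃ g, Feeds C k g then h.choose else k

/-- tree node of a node of the circuit -/
def idx (k : Fin C.nodes) : Fin (C.nodes + 1) := (Fin.rev k).succ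

open Classical in
/-- parents in the tree -/
noncomputable def parT : Fin (C.nodes + 1) → Fin (C.nodes + 1) :=
  Fin.cases 0 fun i => if ∃ g, Feeds C (Fin.rev i) g then idx C (nxt C (Fin.rev i)) else 0

open Classical in
/-- bags of the tree -/
noncomputable def bagT : Fin (C.nodes + 1) → Finset {k : Fin C.nodes // IsGate C k} :=
  Fin.cases (univ.filter fun v => IsShared C v.1) fun i =>
    univ.filter fun v => IsShared C v.1 ∨ v.1 = Fin.rev i ∨ v.1 = nxt C (Fin.rev i)

theorem nxt_feeds {k : Fin C.nodes} (h : ∃ g, Feeds C k g) : Feeds C k (nxt C k) := by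
  rw [nxt, dif_pos h]
  exact h.choose_spec

theorem nxt_of_not {k : Fin C.nodes} (h : ¬ ∃ g, Feeds C k g) : nxt C k = k := by
  rw [nxt, dif_neg h]

theorem le_nxt (k : Fin C.nodes) : k ≤ nxt C k := by
  by_cases h : ∃ g, Feeds C k g
  · exact (feeds_lt C (nxt_feeds C h)).le
  · rw [nxt_of_not C h]

theorem parT_idx_pos {k : Fin C.nodes} (h : ∃ g, Feeds C k g) :
    parT C (idx C k) = idx C (nxt C k) := by
  unfold parT idx
  rw [Fin.cases_succ, Fin.rev_rev, if_pos h]

theorem parT_idx_neg {k : Fin C.nodes} (h : ¬ ∃ g, Feeds C k g) : parT C (idx C k) = 0 := by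
  unfold parT idx
  rw [Fin.cases_succ, Fin.rev_rev, if_neg h]

theorem mem_bagT_zero {v : {k : Fin C.nodes // IsGate C k}} : v ∈ bagT C 0 ↔ IsShared C v.1 := by
  unfold bagT
  rw [Fin.cases_zero]
  simp

theorem mem_bagT_idx {v : {k : Fin C.nodes // IsGate C k}} {k : Fin C.nodes} :
    v ∈ bagT C (idx C k) ↔ IsShared C v.1 ∨ v.1 = k ∨ v.1 = nxt C k := by
  unfold bagT idx
  rw [Fin.cases_succ, Fin.rev_rev]
  simp

theorem exists_idx {i : Fin (C.nodes + 1)} (h : i ≠ 0) : ∃ k, i = idx C k := by
  obtain ⟨j, rfl⟩ := Fin.exists_succ_eq.2 h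
  exact ⟨Fin.rev j, by rw [idx, Fin.rev_rev]⟩

theorem idx_lt {k k' : Fin C.nodes} (h : k < k') : idx C k' < idx C k := by
  unfold idx
  rw [Fin.succ_lt_succ_iff, Fin.rev_lt_rev]
  exact h

theorem idx_ne_zero (k : Fin C.nodes) : idx C k ≠ 0 := Fin.succ_ne_zero _

/-- A circuit with `q` shared gates has a gate graph of treewidth at most `q + 1`. -/
theorem hasTreeDec_shared : HasTreeDec (gateAdj C) (sharedCount C + 1) := by
  classical
  refine ⟨C.nodes, parT C, bagT C, ?_, ?_, ?_, ?_⟩
  · intro i hi
    obtain ⟨k, rfl⟩ := exists_idx C (i := i) (Fin.pos_iff_ne_zero.1 hi)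
    by_cases h : ∃ g, Feeds C k g
    · rw [parT_idx_pos C h]
      exact idx_lt C (feeds_lt C (nxt_feeds C h))
    · rw [parT_idx_neg C h]
      exact hi
  · have hS : (univ.filter fun v : {k : Fin C.nodes // IsGate C k} => IsShared C v.1).card ≤
        sharedCount C := by
      rw [sharedCount, Nat.card_eq_fintype_card, Fintype.card_subtype,
        ← Finset.card_map (Function.Embedding.subtype fun k => IsGate C k)]
      apply card_le_card
      intro k hk
      rw [mem_map] at hk
      obtain ⟨v, hv, rfl⟩ := hk
      simp only [mem_filter, mem_univ, true_and] at hv ⊢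
      exact hv
    intro i
    by_cases hi : i = 0
    · rw [hi]
      have : (bagT C 0).card ≤ sharedCount C := by
        refine le_trans (card_le_card ?_) hS
        intro v hv
        rw [mem_bagT_zero] at hv
        simp [hv]
      omega
    · obtain ⟨k, rfl⟩ := exists_idx C hi
      have h1 : bagT C (idx C k) ⊆
          (univ.filter fun v : {k : Fin C.nodes // IsGate C k} => IsShared C v.1) ∪
          ((univ.filter fun v : {k : Fin C.nodes // IsGate C k} => v.1 = k) ∪
          (univ.filter fun v : {k : Fin C.nodes // IsGate C k} => v.1 = nxt C k)) := by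
        intro v hv
        rw [mem_bagT_idx] at hv
        simp only [mem_union, mem_filter, mem_univ, true_and]
        exact hv
      have h2 : ∀ a : Fin C.nodes,
          (univ.filter fun v : {k : Fin C.nodes // IsGate C k} => v.1 = a).card ≤ 1 := by
        intro a
        rw [card_le_one]
        intro x hx y hy
        simp only [mem_filter, mem_univ, true_and] at hx hy
        exact Subtype.ext (hx.trans hy.symm)
      have h3 := card_le_card h1
      have h4 := card_union_le
        (univ.filter fun v : {k : Fin C.nodes // IsGate C k} => IsShared C v.1)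
        ((univ.filter fun v : {k : Fin C.nodes // IsGate C k} => v.1 = k) ∪
          (univ.filter fun v : {k : Fin C.nodes // IsGate C k} => v.1 = nxt C k))
      have h5 := card_union_le (univ.filter fun v : {k : Fin C.nodes // IsGate C k} => v.1 = k)
          (univ.filter fun v : {k : Fin C.nodes // IsGate C k} => v.1 = nxt C k)
      have h6 := h2 k
      have h7 := h2 (nxt C k)
      omega
  · intro v
    by_cases hv : IsShared C v.1
    · refine ⟨0, ⟨(mem_bagT_zero C).2 hv, Or.inl rfl⟩, ?_⟩
      rintro i ⟨_, h | h⟩
      · exact h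
      · exfalso
        apply h
        by_cases hp : parT C i = 0
        · rw [hp]
          exact (mem_bagT_zero C).2 hv
        · obtain ⟨k, hk⟩ := exists_idx C hp
          rw [hk]
          exact (mem_bagT_idx C).2 (Or.inl hv)
    · refine ⟨idx C v.1, ⟨(mem_bagT_idx C).2 (Or.inr (Or.inl rfl)), Or.inr ?_⟩, ?_⟩
      · by_cases h : ∃ g, Feeds C v.1 g
        · rw [parT_idx_pos C h, mem_bagT_idx]
          have h1 := feeds_lt C (nxt_feeds C h)
          have h2 := le_nxt C (nxt C v.1)
          rintro (h3 | h3 | h3)
          · exact hv h3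
          · exact h1.ne h3
          · rw [← h3] at h2
            exact absurd h1 (not_lt.2 h2)
        · rw [parT_idx_neg C h, mem_bagT_zero]
          exact hv
      · rintro i ⟨h1, h2⟩
        by_cases hi : i = 0
        · rw [hi, mem_bagT_zero] at h1
          exact absurd h1 hv
        · obtain ⟨k, rfl⟩ := exists_idx C hi
          rcases h2 with h2 | h2
          · exact absurd h2 hi
          · rw [mem_bagT_idx] at h1
            rcases h1 with h1 | h1 | h1
            · exact absurd h1 hv
            · rw [h1]
            · by_cases h : ∃ g, Feeds C k g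
              · exfalso
                apply h2
                rw [parT_idx_pos C h, mem_bagT_idx]
                exact Or.inr (Or.inl h1)
              · rw [h1, nxt_of_not C h]
  · have key : ∀ u v : {k : Fin C.nodes // IsGate C k}, Feeds C u.1 v.1 →
        ∃ i, u ∈ bagT C i ∧ v ∈ bagT C i := by
      intro u v huv
      by_cases hu : IsShared C u.1
      · exact ⟨idx C v.1, (mem_bagT_idx C).2 (Or.inl hu), (mem_bagT_idx C).2 (Or.inr (Or.inl rfl))⟩
      · refine ⟨idx C u.1, (mem_bagT_idx C).2 (Or.inr (Or.inl rfl)), (mem_bagT_idx C).2 ?_⟩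
        right
        right
        by_contra hne
        exact hu ⟨u.2, v.1, nxt C u.1, hne, huv, nxt_feeds C ⟨_, huv⟩⟩
    intro u v huv
    rcases huv with h | h
    · exact key u v h
    · obtain ⟨i, h1, h2⟩ := key v u h
      exact ⟨i, h2, h1⟩

end Pool.Agent.H522R3.TW
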